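import Mathlib

set_option autoImplicit false

namespace Pool.Agent.H470R3.Kn

open Finset

variable {k b : ℕ}

/-- the set of blocks missed by a set of cells -/
def Mis (A : Finset (Fin k × Fin b)) : Finset (Fin k) :=
  univ.filter (fun i => ∀ y, (i, y) ∉ A)

lemma mem_Mis {A : Finset (Fin k × Fin b)} {i : Fin k} :
    i ∈ Mis A ↔ ∀ y, (i, y) ∉ A := by
  simp [Mis]

lemma not_mem_Mis {A : Finset (Fin k × Fin b)} {i : Fin k} :
    i ∉ Mis A ↔ ∃ y, (i, y) ∈ A := by
  simp [Mis]

lemma exists_trans (hb : 0 < b) (A : Finset (Fin k × Fin b)) :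
    ∃ T : Finset (Fin k × Fin b), T.card ≤ k ∧
      ∀ x ∈ A, x ∉ T → ∃ z ∈ A, z ≠ x ∧ z.1 = x.1 := by
  classical
  have h : ∀ i : Fin k, ∃ y : Fin b, i ∉ Mis A → (i, y) ∈ A := by
    intro i
    by_cases hi : i ∈ Mis A
    · exact ⟨⟨0, hb⟩, fun h => absurd hi h⟩
    · obtain ⟨y, hy⟩ := not_mem_Mis.1 hi
      exact ⟨y, fun _ => hy⟩
  choose f hf using h
  refine ⟨univ.image (fun i => (i, f i)), ?_, ?_⟩
  · exact le_trans card_image_le (by simp)
  · intro x hx hxT
    have hi : x.1 ∉ Mis A := not_mem_Mis.2 ⟨x.2, hx⟩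
    refine ⟨(x.1, f x.1), hf _ hi, ?_, rfl⟩
    intro h
    apply hxT
    rw [← h]
    exact mem_image_of_mem _ (mem_univ _)

lemma Mis_swap_add {A : Finset (Fin k × Fin b)} {x y : Fin k × Fin b}
    (hx : ∃ z ∈ A, z ≠ x ∧ z.1 = x.1) :
    Mis (insert y (A.erase x)) = (Mis A).erase y.1 := by
  classical
  ext i
  rw [mem_erase, mem_Mis, mem_Mis]
  constructor
  · intro h
    refine ⟨?_, ?_⟩
    · rintro rfl
      exact h y.2 (by simp)
    · intro z hz
      by_cases hzx : (i, z) = x
      · obtain ⟨t, htA, htx, ht1⟩ := hx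
        have h1 : t.1 = i := by rw [ht1, ← hzx]
        apply h t.2
        have h2 : (i, t.2) = t := by rw [← h1]
        rw [h2]
        exact mem_insert_of_mem (mem_erase.2 ⟨htx, htA⟩)
      · exact h z (mem_insert_of_mem (mem_erase.2 ⟨hzx, hz⟩))
  · rintro ⟨h1, h2⟩ z hz
    rw [mem_insert, mem_erase] at hz
    rcases hz with hz | hz
    · apply h1; rw [← hz]
    · exact h2 z hz.2

/-- the family of w-sets missing exactly e blocks -/
def Slev (k b w e : ℕ) : Finset (Finset (Fin k × Fin b)) :=
  (powersetCard w univ).filter (fun A => (Mis A).card = e)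

lemma mem_Slev {w e : ℕ} {A : Finset (Fin k × Fin b)} :
    A ∈ Slev k b w e ↔ A.card = w ∧ (Mis A).card = e := by
  simp [Slev, mem_powersetCard]

lemma swap_inj {α : Type*} [DecidableEq α] {A : Finset α} {x y x' y' : α}
    (hx : x ∈ A) (hy : y ∉ A) (hx' : x' ∈ A) (hy' : y' ∉ A)
    (h : insert y (A.erase x) = insert y' (A.erase x')) : x = x' ∧ y = y' := by
  have hxy : x ≠ y := fun e => hy (e ▸ hx)
  have hxy' : x' ≠ y' := fun e => hy' (e ▸ hx')
  constructor
  · by_contra hne
    have : x ∈ insert y' (A.erase x') := by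
      refine mem_insert_of_mem (mem_erase.2 ⟨hne, hx⟩)
    rw [← h, mem_insert, mem_erase] at this
    rcases this with h1 | h1
    · exact hxy h1
    · exact h1.1 rfl
  · have : y ∈ insert y' (A.erase x') := by rw [← h]; simp
    rw [mem_insert, mem_erase] at this
    rcases this with h1 | h1
    · exact h1
    · exact absurd h1.2 hy

lemma card_swap {α : Type*} [DecidableEq α] {A : Finset α} {x y : α}
    (hx : x ∈ A) (hy : y ∉ A) : (insert y (A.erase x)).card = A.card := by
  rw [card_insert_of_notMem (fun h => hy (mem_of_mem_erase h)), card_erase_of_mem hx]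
  have : 0 < A.card := card_pos.2 ⟨x, hx⟩
  omega

lemma Slev_step (hb : 0 < b) (w e : ℕ) :
    (Slev k b w (e + 1)).card * ((e + 1) * b * (w - k)) ≤
      (Slev k b w e).card * ((k - e) * (k * b)) := by
  classical
  let r : Finset (Fin k × Fin b) → Finset (Fin k × Fin b) → Prop :=
    fun A B => ∃ x ∈ A, ∃ y, y.1 ∈ Mis A ∧ B = insert y (A.erase x)
  refine card_mul_le_card_mul r ?_ ?_
  · intro A hA
    obtain ⟨hAw, hAe⟩ := mem_Slev.1 hA
    obtain ⟨T, hT, hTx⟩ := exists_trans hb A
    have hc : (e + 1) * b * (w - k) ≤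
        (((Mis A) ×ˢ (univ : Finset (Fin b))) ×ˢ (A \ T)).card := by
      rw [card_product, card_product, hAe, card_univ, Fintype.card_fin]
      apply Nat.mul_le_mul_left
      have := le_card_sdiff T A
      omega
    refine le_trans hc ?_
    refine card_le_card_of_injOn (fun p => insert p.1 (A.erase p.2)) ?_ ?_
    · rintro ⟨y, x⟩ hp
      simp only [coe_product, Set.mem_prod, mem_coe, mem_univ, and_true, mem_sdiff] at hp
      obtain ⟨hy, hxA, hxT⟩ := hp
      have hyA : y ∉ A := mem_Mis.1 hy y.2
      rw [mem_coe, mem_bipartiteAbove, mem_Slev]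
      refine ⟨⟨?_, ?_⟩, x, hxA, y, hy, rfl⟩
      · rw [card_swap hxA hyA, hAw]
      · rw [Mis_swap_add (hTx x hxA hxT), card_erase_of_mem hy, hAe]; rfl
    · rintro ⟨y, x⟩ hp ⟨y', x'⟩ hp' h
      simp only [coe_product, Set.mem_prod, mem_coe, mem_univ, and_true, mem_sdiff] at hp hp'
      obtain ⟨hy, hxA, hxT⟩ := hp
      obtain ⟨hy', hxA', hxT'⟩ := hp'
      obtain ⟨h1, h2⟩ := swap_inj hxA (mem_Mis.1 hy y.2) hxA' (mem_Mis.1 hy' y'.2) h
      have h3 : y = y' := h2
      rw [h1, h3]
  · intro B hB
    obtain ⟨hBw, hBe⟩ := mem_Slev.1 hB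
    have hsub : (Slev k b w (e + 1)).bipartiteBelow r B ⊆
        ((Mis B)ᶜ ×ˢ (univ : Finset (Fin k × Fin b))).image
          (fun p => insert p.2 (B.filter (fun z => z.1 ≠ p.1))) := by
      intro A hA
      rw [mem_bipartiteBelow] at hA
      obtain ⟨hA1, x, hxA, y, hy, rfl⟩ := hA
      rw [mem_image]
      refine ⟨(y.1, x), ?_, ?_⟩
      · rw [mem_product, mem_compl]
        refine ⟨not_mem_Mis.2 ⟨y.2, by simp⟩, mem_univ _⟩
      · ext z
        simp only [mem_insert, mem_filter, mem_erase]
        constructor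
        · rintro (h | ⟨h | h, h'⟩)
          · rw [h]; exact hxA
          · exact absurd (by rw [h]) h'
          · exact h.2
        · intro hz
          by_cases hzx : z = x
          · exact Or.inl hzx
          · refine Or.inr ⟨Or.inr ⟨hzx, hz⟩, ?_⟩
            intro h1
            apply mem_Mis.1 hy z.2
            rw [← h1]; exact hz
    refine le_trans (card_le_card hsub) (le_trans card_image_le ?_)
    rw [card_product, card_compl, hBe, card_univ, Fintype.card_prod, Fintype.card_fin,
      Fintype.card_fin]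

lemma Slev_bound (hb : 0 < b) (hk : 0 < k) (a e : ℕ) :
    (Slev k b (k * a) e).card * (a - 1) ^ e ≤ k.choose e * (Slev k b (k * a) 0).card := by
  induction e with
  | zero => simp
  | succ e ih =>
    have h := Slev_step (k := k) hb (k * a) e
    have hwk : k * a - k = k * (a - 1) := by
      rw [Nat.mul_sub, Nat.mul_one]
    rw [hwk] at h
    have h1 : (Slev k b (k * a) (e + 1)).card * ((e + 1) * (a - 1)) ≤
        (Slev k b (k * a) e).card * (k - e) := by
      have hbk : 0 < b * k := Nat.mul_pos hb hk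
      refine Nat.le_of_mul_le_mul_right ?_ hbk
      calc (Slev k b (k * a) (e + 1)).card * ((e + 1) * (a - 1)) * (b * k)
          = (Slev k b (k * a) (e + 1)).card * ((e + 1) * b * (k * (a - 1))) := by ring
        _ ≤ _ := h
        _ = _ := by ring
    have h2 := Nat.choose_succ_right_eq k e
    refine Nat.le_of_mul_le_mul_right ?_ (Nat.succ_pos e)
    calc (Slev k b (k * a) (e + 1)).card * (a - 1) ^ (e + 1) * (e + 1)
        = (Slev k b (k * a) (e + 1)).card * ((e + 1) * (a - 1)) * (a - 1) ^ e := by ring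
      _ ≤ (Slev k b (k * a) e).card * (k - e) * (a - 1) ^ e := Nat.mul_le_mul_right _ h1
      _ = ((Slev k b (k * a) e).card * (a - 1) ^ e) * (k - e) := by ring
      _ ≤ (k.choose e * (Slev k b (k * a) 0).card) * (k - e) := Nat.mul_le_mul_right _ ih
      _ = (k.choose e * (k - e)) * (Slev k b (k * a) 0).card := by ring
      _ = (k.choose (e + 1) * (e + 1)) * (Slev k b (k * a) 0).card := by rw [h2]
      _ = _ := by simp only [Nat.succ_eq_add_one]; ring

lemma sum_Slev (w : ℕ) :
    ∑ e ∈ range (k + 1), (Slev k b w e).card = (k * b).choose w := by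
  have h : (powersetCard w (univ : Finset (Fin k × Fin b))).card =
      ∑ e ∈ range (k + 1), (Slev k b w e).card := by
    refine card_eq_sum_card_fiberwise (f := fun A => (Mis A).card) ?_
    intro A _
    rw [mem_coe, mem_range]
    have := card_le_univ (Mis A)
    rw [Fintype.card_fin] at this
    show (Mis A).card < k + 1
    omega
  rw [← h, card_powersetCard, card_univ, Fintype.card_prod, Fintype.card_fin, Fintype.card_fin]

lemma total_le (hb : 0 < b) (hk : 0 < k) (a : ℕ) (ha : 1 ≤ a) :
    (k * b).choose (k * a) * (a - 1) ^ k ≤ (Slev k b (k * a) 0).card * a ^ k := by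
  rw [← sum_Slev, sum_mul]
  calc ∑ e ∈ range (k + 1), (Slev k b (k * a) e).card * (a - 1) ^ k
      = ∑ e ∈ range (k + 1), (Slev k b (k * a) e).card * (a - 1) ^ e * (a - 1) ^ (k - e) := by
        refine sum_congr rfl fun e he => ?_
        rw [mul_assoc, ← pow_add]
        congr 2
        have := mem_range.1 he
        omega
    _ ≤ ∑ e ∈ range (k + 1), k.choose e * (Slev k b (k * a) 0).card * (a - 1) ^ (k - e) :=
        sum_le_sum fun e _ => Nat.mul_le_mul_right _ (Slev_bound hb hk a e)
    _ = (Slev k b (k * a) 0).card *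
        ∑ e ∈ range (k + 1), 1 ^ e * (a - 1) ^ (k - e) * k.choose e := by
        rw [mul_sum]
        refine sum_congr rfl fun e _ => ?_
        rw [one_pow]; ring
    _ = (Slev k b (k * a) 0).card * a ^ k := by
        have h := add_pow (1 : ℕ) (a - 1) k
        simp only [Nat.cast_id] at h
        rw [← h]
        congr 2
        omega

lemma Slev_eq_empty {w e : ℕ} (h : (k - e) * b < w) : (Slev k b w e).card = 0 := by
  classical
  rw [card_eq_zero, eq_empty_iff_forall_notMem]
  intro A hA
  obtain ⟨h1, h2⟩ := mem_Slev.1 hA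
  have hsub : A ⊆ (Mis A)ᶜ ×ˢ univ := by
    intro x hx
    rw [mem_product, mem_compl]
    exact ⟨not_mem_Mis.2 ⟨x.2, hx⟩, mem_univ _⟩
  have := card_le_card hsub
  rw [card_product, card_compl, h1, h2, card_univ, Fintype.card_fin, Fintype.card_fin] at this
  omega

/-- full blocks -/
def Cont (G : Finset (Fin k × Fin b)) (w : ℕ) : Finset (Finset (Fin k × Fin b)) :=
  (Slev k b w 0).filter (fun A => G ⊆ A)

lemma Cont_step (hb : 0 < b) {w : ℕ} (G : Finset (Fin k × Fin b)) (y : Fin k × Fin b)
    (L : ℕ) (hL : k * b ≤ L * (w - G.card - k)) (hpos : 0 < w - G.card - k) :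
    (Cont G w).card ≤ (L + 1) * (Cont (insert y G) w).card := by
  classical
  have hdiv : ((Cont G w).filter (fun A => y ∉ A)).card * (w - G.card - k) ≤
      (Cont (insert y G) w).card * (k * b) := by
    refine card_mul_le_card_mul (fun A B => ∃ x ∈ A, B = insert y (A.erase x) ∧ y ∉ A) ?_ ?_
    · intro A hA
      rw [mem_filter, Cont, mem_filter, mem_Slev] at hA
      obtain ⟨⟨⟨hAw, hA0⟩, hGA⟩, hyA⟩ := hA
      obtain ⟨T, hT, hTx⟩ := exists_trans hb A
      have hc : w - G.card - k ≤ (A \ (G ∪ T)).card := by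
        have h1 := le_card_sdiff (G ∪ T) A
        have h2 := card_union_le G T
        omega
      refine le_trans hc ?_
      refine card_le_card_of_injOn (fun x => insert y (A.erase x)) ?_ ?_
      · intro x hx
        rw [mem_coe, mem_sdiff, mem_union, not_or] at hx
        obtain ⟨hxA, hxG, hxT⟩ := hx
        rw [mem_coe, mem_bipartiteAbove, Cont, mem_filter, mem_Slev]
        refine ⟨⟨⟨?_, ?_⟩, ?_⟩, x, hxA, rfl, hyA⟩
        · rw [card_swap hxA hyA, hAw]
        · rw [Mis_swap_add (hTx x hxA hxT), card_eq_zero.1 hA0]; simp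
        · intro z hz
          rw [mem_insert] at hz
          rw [mem_insert, mem_erase]
          rcases hz with hz | hz
          · exact Or.inl hz
          · exact Or.inr ⟨fun h => hxG (h ▸ hz), hGA hz⟩
      · intro x hx x' hx' h
        rw [mem_coe, mem_sdiff] at hx hx'
        exact (swap_inj hx.1 hyA hx'.1 hyA h).1
    · intro B hB
      have hsub : ((Cont G w).filter (fun A => y ∉ A)).bipartiteBelow
          (fun A B => ∃ x ∈ A, B = insert y (A.erase x) ∧ y ∉ A) B ⊆
          (univ : Finset (Fin k × Fin b)).image (fun x => insert x (B.erase y)) := by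
        intro A hA
        rw [mem_bipartiteBelow] at hA
        obtain ⟨_, x, hxA, rfl, hyA⟩ := hA
        rw [mem_image]
        refine ⟨x, mem_univ _, ?_⟩
        rw [erase_insert (fun h => hyA (mem_of_mem_erase h)), insert_erase hxA]
      refine le_trans (card_le_card hsub) (le_trans card_image_le ?_)
      rw [card_univ, Fintype.card_prod, Fintype.card_fin, Fintype.card_fin]
  have hsplit : (Cont G w).card ≤ ((Cont G w).filter (fun A => y ∉ A)).card +
      (Cont (insert y G) w).card := by
    rw [← card_filter_add_card_filter_not (s := Cont G w) (fun A => y ∉ A)]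
    apply Nat.add_le_add_left
    apply card_le_card
    intro A hA
    rw [mem_filter, not_not, Cont, mem_filter] at hA
    rw [Cont, mem_filter]
    refine ⟨hA.1.1, ?_⟩
    intro z hz
    rw [mem_insert] at hz
    rcases hz with rfl | hz
    · exact hA.2
    · exact hA.1.2 hz
  have h3 : ((Cont G w).filter (fun A => y ∉ A)).card ≤ L * (Cont (insert y G) w).card := by
    refine Nat.le_of_mul_le_mul_right ?_ hpos
    calc _ ≤ (Cont (insert y G) w).card * (k * b) := hdiv
      _ ≤ (Cont (insert y G) w).card * (L * (w - G.card - k)) := Nat.mul_le_mul_left _ hL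
      _ = _ := by ring
  calc (Cont G w).card ≤ _ := hsplit
    _ ≤ L * (Cont (insert y G) w).card + (Cont (insert y G) w).card := Nat.add_le_add_right h3 _
    _ = _ := by ring

lemma Cont_bound (hb : 0 < b) {w : ℕ} (L g : ℕ) (hL : k * b ≤ L * (w - g - k))
    (hpos : 0 < w - g - k) (G : Finset (Fin k × Fin b)) (hG : G.card ≤ g) :
    (Slev k b w 0).card ≤ (L + 1) ^ G.card * (Cont G w).card := by
  classical
  induction G using Finset.induction_on with
  | empty => simp [Cont]
  | insert y G hy ih =>
    rw [card_insert_of_notMem hy] at hG ⊢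
    have h1 := ih (by omega)
    have h2 := Cont_step hb (w := w) G y L
      (le_trans hL (Nat.mul_le_mul_left _ (by omega))) (by omega)
    calc (Slev k b w 0).card ≤ (L + 1) ^ G.card * (Cont G w).card := h1
      _ ≤ (L + 1) ^ G.card * ((L + 1) * (Cont (insert y G) w).card) := Nat.mul_le_mul_left _ h2
      _ = _ := by ring

end Pool.Agent.H470R3.Kn
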