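import Mathlib
import Pool.Agent.H470R3.KnA

set_option autoImplicit false

namespace Pool.Agent.H470R3.Kn

open Finset

variable {k b n0 h : ℕ}

/-- the w-sets whose set of missed blocks is E -/
def CE (b w : ℕ) (E : Finset (Fin k)) : Finset (Finset (Fin k × Fin b)) :=
  (powersetCard w univ).filter (fun A => Mis A = E)

lemma mem_CE {w : ℕ} {E : Finset (Fin k)} {A : Finset (Fin k × Fin b)} :
    A ∈ CE b w E ↔ A.card = w ∧ Mis A = E := by
  simp [CE, mem_powersetCard]

/-- the cells of group g -/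
def Reg (b : ℕ) (ε : Fin n0 × Fin h ≃ Fin k) (g : Fin n0) : Finset (Fin k × Fin b) :=
  univ.filter (fun x => (ε.symm x.1).1 = g)

lemma mem_Reg {ε : Fin n0 × Fin h ≃ Fin k} {g : Fin n0} {x : Fin k × Fin b} :
    x ∈ Reg b ε g ↔ (ε.symm x.1).1 = g := by
  simp [Reg]

lemma card_Reg (ε : Fin n0 × Fin h ≃ Fin k) (g : Fin n0) :
    (Reg b ε g).card = h * b := by
  classical
  have : Reg b ε g = (univ : Finset (Fin h × Fin b)).image (fun p => (ε (g, p.1), p.2)) := by
    ext x
    rw [mem_Reg, mem_image]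
    constructor
    · intro hx
      refine ⟨((ε.symm x.1).2, x.2), mem_univ _, ?_⟩
      have : (g, (ε.symm x.1).2) = ε.symm x.1 := by rw [← hx]
      simp [this]
    · rintro ⟨p, _, rfl⟩
      simp
  rw [this, card_image_of_injective, card_univ, Fintype.card_prod, Fintype.card_fin,
    Fintype.card_fin]
  intro p p' hp
  simp only [Prod.mk.injEq, EmbeddingLike.apply_eq_iff_eq, true_and] at hp
  exact Prod.ext hp.1 hp.2

/-- agreement outside of the region together with equal count inside -/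
def Agr (ε : Fin n0 × Fin h ≃ Fin k) (g : Fin n0) (A B : Finset (Fin k × Fin b)) : Prop :=
  A \ Reg b ε g = B \ Reg b ε g

lemma exists_repl (E : Finset (Fin k)) (w : ℕ) (ε : Fin n0 × Fin h ≃ Fin k)
    (d : Fin n0 → Fin k) (hd : ∀ g, (ε.symm (d g)).1 = g) (hdE : ∀ g, d g ∉ E)
    (hb : 0 < b) (g : Fin n0) (A : Finset (Fin k × Fin b)) (hA : A ∈ CE b w E)
    (hgood : b + h ≤ (A ∩ Reg b ε g).card) :
    ∃ B ∈ CE b w E, (b + h ≤ (B ∩ Reg b ε g).card) ∧ (∀ y, (d g, y) ∈ B) ∧ Agr ε g A B := by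
  classical
  obtain ⟨hAw, hAE⟩ := mem_CE.1 hA
  -- the base set
  let B0 : Finset (Fin k × Fin b) := ((univ : Finset (Fin b)).image (fun y => (d g, y))) ∪
    (((univ : Finset (Fin h)).filter (fun l => ε (g, l) ∉ E)).image
      (fun l => (ε (g, l), (⟨0, hb⟩ : Fin b))))
  let RE : Finset (Fin k × Fin b) := (Reg b ε g).filter (fun x => x.1 ∉ E)
  have hB0card : B0.card ≤ b + h := by
    refine le_trans (card_union_le _ _) (Nat.add_le_add ?_ ?_)
    · exact le_trans card_image_le (by simp)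
    · refine le_trans card_image_le (le_trans (card_filter_le _ _) (by simp))
  have hB0sub : B0 ⊆ RE := by
    intro x hx
    rw [mem_filter, mem_Reg]
    rcases mem_union.1 hx with hx | hx
    · obtain ⟨y, _, rfl⟩ := mem_image.1 hx
      exact ⟨hd g, hdE g⟩
    · obtain ⟨l, hl, rfl⟩ := mem_image.1 hx
      exact ⟨by simp, (mem_filter.1 hl).2⟩
  have hARE : A ∩ Reg b ε g ⊆ RE := by
    intro x hx
    rw [mem_inter] at hx
    rw [mem_filter]
    refine ⟨hx.2, ?_⟩
    rw [← hAE]
    exact not_mem_Mis.2 ⟨x.2, hx.1⟩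
  obtain ⟨C, hC1, hC2, hC3⟩ := exists_subsuperset_card_eq hB0sub
    (le_trans hB0card hgood) (card_le_card hARE)
  have hCR : C ⊆ Reg b ε g := fun x hx => (mem_filter.1 (hC2 hx)).1
  let B := (A \ Reg b ε g) ∪ C
  have hBR : B ∩ Reg b ε g = C := by
    ext x
    simp only [B, mem_inter, mem_union, mem_sdiff]
    constructor
    · rintro ⟨h1 | h1, h2⟩
      · exact absurd h2 h1.2
      · exact h1
    · intro hx
      exact ⟨Or.inr hx, hCR hx⟩
  have hBout : B \ Reg b ε g = A \ Reg b ε g := by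
    ext x
    simp only [B, mem_union, mem_sdiff]
    constructor
    · rintro ⟨h1 | h1, h2⟩
      · exact h1
      · exact absurd (hCR h1) h2
    · intro hx
      exact ⟨Or.inl hx, hx.2⟩
  refine ⟨B, ?_, ?_, ?_, hBout.symm⟩
  · rw [mem_CE]
    constructor
    · have h1 := card_sdiff_add_card_inter B (Reg b ε g)
      have h2 := card_sdiff_add_card_inter A (Reg b ε g)
      rw [hBout, hBR, hC3] at h1
      omega
    · rw [← hAE]
      ext i
      rw [mem_Mis, mem_Mis]
      by_cases hi : (ε.symm i).1 = g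
      · constructor
        · intro hB y hy
          have hiE : i ∉ E := by rw [← hAE]; exact not_mem_Mis.2 ⟨y, hy⟩
          apply hB ⟨0, hb⟩
          apply mem_union_right
          apply hC1
          apply mem_union_right
          rw [mem_image]
          have hgi : ε (g, (ε.symm i).2) = i := by
            have : (g, (ε.symm i).2) = ε.symm i := by rw [← hi]
            rw [this]; simp
          refine ⟨(ε.symm i).2, ?_, by rw [hgi]⟩
          rw [mem_filter, hgi]
          exact ⟨mem_univ _, hiE⟩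
        · intro hA' y hy
          have hiE : i ∈ E := by rw [← hAE]; exact mem_Mis.2 hA'
          rcases mem_union.1 hy with hy | hy
          · exact (mem_sdiff.1 hy).2 (mem_Reg.2 hi)
          · exact (mem_filter.1 (hC2 hy)).2 hiE
      · constructor
        · intro hB y hy
          apply hB y
          exact mem_union_left _ (mem_sdiff.2 ⟨hy, fun h => hi (mem_Reg.1 h)⟩)
        · intro hA' y hy
          rcases mem_union.1 hy with hy | hy
          · exact hA' y (mem_sdiff.1 hy).1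
          · exact hi (mem_Reg.1 (hCR hy))
  · rw [hBR, hC3]; exact hgood
  · intro y
    apply mem_union_right
    apply hC1
    apply mem_union_left
    exact mem_image_of_mem _ (mem_univ _)

lemma Agr_inter {ε : Fin n0 × Fin h ≃ Fin k} {g g' : Fin n0} (hg : g' ≠ g)
    {A B : Finset (Fin k × Fin b)} (hAB : Agr ε g A B) :
    A ∩ Reg b ε g' = B ∩ Reg b ε g' := by
  classical
  have key : ∀ x ∈ Reg b ε g', (x ∈ A ↔ x ∈ B) := by
    intro x hx
    have hxg : x ∉ Reg b ε g := by
      rw [mem_Reg] at hx ⊢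
      rw [hx]; exact hg
    have h1 : x ∈ A \ Reg b ε g ↔ x ∈ B \ Reg b ε g := by
      unfold Agr at hAB
      rw [hAB]
    rw [mem_sdiff, mem_sdiff] at h1
    constructor
    · intro h; exact (h1.1 ⟨h, hxg⟩).1
    · intro h; exact (h1.2 ⟨h, hxg⟩).1
  ext x
  rw [mem_inter, mem_inter]
  constructor
  · rintro ⟨h1, h2⟩; exact ⟨(key x h2).1 h1, h2⟩
  · rintro ⟨h1, h2⟩; exact ⟨(key x h2).2 h1, h2⟩

open Classical in
/-- the weight of a group -/
noncomputable def psi (K : ℝ) (ε : Fin n0 × Fin h ≃ Fin k) (d : Fin n0 → Fin k) (g : Fin n0)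
    (A : Finset (Fin k × Fin b)) : ℝ :=
  if b + h ≤ (A ∩ Reg b ε g).card then (if ∀ y, (d g, y) ∈ A then 0 else 1 + 1 / K) else 1

lemma psi_nonneg {K : ℝ} (hK : 0 < K) (ε : Fin n0 × Fin h ≃ Fin k) (d : Fin n0 → Fin k)
    (g : Fin n0) (A : Finset (Fin k × Fin b)) : 0 ≤ psi K ε d g A := by
  unfold psi
  split_ifs <;> positivity

lemma psi_agr {K : ℝ} {ε : Fin n0 × Fin h ≃ Fin k} {d : Fin n0 → Fin k}
    (hd : ∀ g, (ε.symm (d g)).1 = g) {g g' : Fin n0} (hg : g' ≠ g)
    {A B : Finset (Fin k × Fin b)} (hAB : Agr ε g A B) : psi K ε d g' A = psi K ε d g' B := by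
  classical
  have h1 := Agr_inter hg hAB
  have h2 : (∀ y, (d g', y) ∈ A) ↔ (∀ y, (d g', y) ∈ B) := by
    have hm : ∀ y : Fin b, (d g', y) ∈ Reg b ε g' := fun y => mem_Reg.2 (hd g')
    constructor
    · intro h y
      have : (d g', y) ∈ A ∩ Reg b ε g' := mem_inter.2 ⟨h y, hm y⟩
      rw [h1] at this
      exact (mem_inter.1 this).1
    · intro h y
      have : (d g', y) ∈ B ∩ Reg b ε g' := mem_inter.2 ⟨h y, hm y⟩
      rw [← h1] at this
      exact (mem_inter.1 this).1
  unfold psi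
  rw [h1]
  simp only [h2]

lemma sum_psi_step (E : Finset (Fin k)) (w : ℕ) (ε : Fin n0 × Fin h ≃ Fin k)
    (d : Fin n0 → Fin k) (hd : ∀ g, (ε.symm (d g)).1 = g) (hdE : ∀ g, d g ∉ E)
    (hb : 0 < b) (g : Fin n0) (H : Finset (Fin k × Fin b) → ℝ) (hH : ∀ A, 0 ≤ H A)
    (hHA : ∀ A B, Agr ε g A B → H A = H B) :
    ∑ A ∈ CE b w E, psi ((2 : ℝ) ^ (h * b)) ε d g A * H A ≤ ∑ A ∈ CE b w E, H A := by
  classical
  set K : ℝ := (2 : ℝ) ^ (h * b) with hK
  have hKpos : 0 < K := by positivity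
  set S := CE b w E with hS
  set S1 := S.filter (fun A => b + h ≤ (A ∩ Reg b ε g).card) with hS1
  set F := S1.filter (fun A => ∀ y, (d g, y) ∈ A) with hF
  set G := S1.filter (fun A => ¬ ∀ y, (d g, y) ∈ A) with hG
  -- the comparison
  have hcomp : ∑ A ∈ G, H A ≤ K * ∑ B ∈ F, H B := by
    have hex : ∀ A : Finset (Fin k × Fin b), ∃ B, A ∈ G → (B ∈ F ∧ Agr ε g A B) := by
      intro A
      by_cases hA : A ∈ G
      · have h1 := (mem_filter.1 (mem_filter.1 hA).1)
        obtain ⟨B, hB1, hB2, hB3, hB4⟩ := exists_repl E w ε d hd hdE hb g A h1.1 h1.2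
        exact ⟨B, fun _ => ⟨mem_filter.2 ⟨mem_filter.2 ⟨hB1, hB2⟩, hB3⟩, hB4⟩⟩
      · exact ⟨A, fun h => absurd h hA⟩
    choose ρ hρ using hex
    rw [← sum_fiberwise_of_maps_to (s := G) (t := F) (g := ρ) (fun A hA => (hρ A hA).1) H,
      mul_sum]
    refine sum_le_sum fun B _ => ?_
    have h1 : ∀ A ∈ G.filter (fun A => ρ A = B), H A = H B := by
      intro A hA
      rw [mem_filter] at hA
      rw [hHA A (ρ A) (hρ A hA.1).2, hA.2]
    rw [sum_congr rfl h1, sum_const, nsmul_eq_mul]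
    apply mul_le_mul_of_nonneg_right _ (hH B)
    have h2 : (G.filter (fun A => ρ A = B)).card ≤ ((Reg b ε g).powerset).card := by
      refine card_le_card_of_injOn (fun A => A ∩ Reg b ε g) ?_ ?_
      · intro A _
        rw [mem_coe, mem_powerset]
        exact inter_subset_right
      · intro A hA A' hA' hAA'
        rw [mem_coe, mem_filter] at hA hA'
        have e1 := (hρ A hA.1).2
        have e2 := (hρ A' hA'.1).2
        rw [hA.2] at e1
        rw [hA'.2] at e2
        unfold Agr at e1 e2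
        have e3 : A ∩ Reg b ε g = A' ∩ Reg b ε g := hAA'
        rw [← sdiff_union_inter A (Reg b ε g), ← sdiff_union_inter A' (Reg b ε g), e1, e2, e3]
    rw [card_powerset, card_Reg] at h2
    calc ((G.filter (fun A => ρ A = B)).card : ℝ) ≤ ((2 ^ (h * b) : ℕ) : ℝ) := by exact_mod_cast h2
      _ = K := by rw [hK]; push_cast; rfl
  have hF0 : 0 ≤ ∑ B ∈ F, H B := sum_nonneg fun A _ => hH A
  -- splitting
  have e1 : ∑ A ∈ S, psi K ε d g A * H A =
      ∑ A ∈ F, 0 * H A + ∑ A ∈ G, (1 + 1 / K) * H A +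
        ∑ A ∈ S.filter (fun A => ¬ b + h ≤ (A ∩ Reg b ε g).card), 1 * H A := by
    rw [← sum_filter_add_sum_filter_not S (fun A => b + h ≤ (A ∩ Reg b ε g).card),
      ← hS1, ← sum_filter_add_sum_filter_not S1 (fun A => ∀ y, (d g, y) ∈ A)]
    congr 1
    · congr 1
      · refine sum_congr rfl fun A hA => ?_
        have h1 := mem_filter.1 hA
        have h2 := mem_filter.1 h1.1
        unfold psi
        rw [if_pos h2.2, if_pos h1.2]
      · refine sum_congr rfl fun A hA => ?_
        have h1 := mem_filter.1 hA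
        have h2 := mem_filter.1 h1.1
        unfold psi
        rw [if_pos h2.2, if_neg h1.2]
    · refine sum_congr rfl fun A hA => ?_
      have h1 := mem_filter.1 hA
      unfold psi
      rw [if_neg h1.2]
  have e2 : ∑ A ∈ S, H A = ∑ A ∈ F, H A + ∑ A ∈ G, H A +
        ∑ A ∈ S.filter (fun A => ¬ b + h ≤ (A ∩ Reg b ε g).card), H A := by
    rw [← sum_filter_add_sum_filter_not S (fun A => b + h ≤ (A ∩ Reg b ε g).card),
      ← hS1, ← sum_filter_add_sum_filter_not S1 (fun A => ∀ y, (d g, y) ∈ A)]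
  rw [e1, e2]
  simp only [zero_mul, sum_const_zero, zero_add, one_mul]
  rw [← mul_sum, add_mul, one_mul]
  have h3 : 1 / K * ∑ A ∈ G, H A ≤ ∑ A ∈ F, H A := by
    rw [div_mul_eq_mul_div, one_mul, div_le_iff₀ hKpos, mul_comm]
    exact hcomp
  linarith

lemma sum_prod_psi (E : Finset (Fin k)) (w : ℕ) (ε : Fin n0 × Fin h ≃ Fin k)
    (d : Fin n0 → Fin k) (hd : ∀ g, (ε.symm (d g)).1 = g) (hdE : ∀ g, d g ∉ E)
    (hb : 0 < b) (Γ : Finset (Fin n0)) :
    ∑ A ∈ CE b w E, ∏ g ∈ Γ, psi ((2 : ℝ) ^ (h * b)) ε d g A ≤ ((CE b w E).card : ℝ) := by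
  classical
  induction Γ using Finset.induction_on with
  | empty => simp
  | insert g Γ hg ih =>
    simp only [prod_insert hg]
    refine le_trans (sum_psi_step E w ε d hd hdE hb g
      (fun A => ∏ g ∈ Γ, psi ((2 : ℝ) ^ (h * b)) ε d g A) ?_ ?_) ih
    · intro A
      exact prod_nonneg fun g' _ => psi_nonneg (by positivity) ε d g' A
    · intro A B hAB
      refine prod_congr rfl fun g' hg' => ?_
      exact psi_agr hd (fun e => hg (by rw [← e]; exact hg')) hAB

lemma good_count (ε : Fin n0 × Fin h ≃ Fin k) (A : Finset (Fin k × Fin b)) :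
    A.card ≤ ((univ : Finset (Fin n0)).filter
      (fun g => b + h ≤ (A ∩ Reg b ε g).card)).card * (h * b) + n0 * (b + h) := by
  classical
  have h1 : A.card = ∑ g : Fin n0, (A ∩ Reg b ε g).card := by
    rw [card_eq_sum_card_fiberwise (f := fun x : Fin k × Fin b => (ε.symm x.1).1)
      (t := univ) (fun x _ => mem_coe.2 (mem_univ _))]
    refine sum_congr rfl fun g _ => ?_
    congr 1
    ext x
    rw [mem_filter, mem_inter, mem_Reg]
  rw [h1, ← sum_filter_add_sum_filter_not (univ : Finset (Fin n0))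
    (fun g => b + h ≤ (A ∩ Reg b ε g).card)]
  apply Nat.add_le_add
  · rw [← smul_eq_mul]
    refine sum_le_card_nsmul _ _ _ fun g _ => ?_
    rw [← card_Reg (b := b) ε g]
    exact card_le_card inter_subset_right
  · have : ∑ g ∈ (univ : Finset (Fin n0)).filter (fun g => ¬ b + h ≤ (A ∩ Reg b ε g).card),
        (A ∩ Reg b ε g).card ≤ ((univ : Finset (Fin n0)).filter
          (fun g => ¬ b + h ≤ (A ∩ Reg b ε g).card)).card • (b + h) := by
      refine sum_le_card_nsmul _ _ _ fun g hg => ?_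
      have := (mem_filter.1 hg).2
      omega
    refine le_trans this ?_
    rw [smul_eq_mul]
    apply Nat.mul_le_mul_right
    exact le_trans (card_filter_le _ _) (by simp)

/-- few sets have no full block among the chosen ones -/
lemma bad_bound (E : Finset (Fin k)) (w g0 : ℕ) (ε : Fin n0 × Fin h ≃ Fin k)
    (d : Fin n0 → Fin k) (hd : ∀ g, (ε.symm (d g)).1 = g) (hdE : ∀ g, d g ∉ E)
    (hb : 0 < b) (hw : g0 * (h * b) + n0 * (b + h) ≤ w) (hhb : 0 < h * b) :
    ((((CE b w E).filter (fun A => ∀ g, ¬ ∀ y, (d g, y) ∈ A)).card : ℕ) : ℝ) *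
      (1 + 1 / (2 : ℝ) ^ (h * b)) ^ g0 ≤ ((CE b w E).card : ℝ) := by
  classical
  refine le_trans ?_ (sum_prod_psi E w ε d hd hdE hb univ)
  rw [← nsmul_eq_mul, ← sum_const]
  refine le_trans (sum_le_sum ?_) (sum_le_sum_of_subset_of_nonneg (filter_subset _ _) ?_)
  · intro A hA
    rw [mem_filter, mem_CE] at hA
    obtain ⟨⟨hAw, hAE⟩, hbad⟩ := hA
    have h1 := good_count (b := b) ε A
    set Gd := (univ : Finset (Fin n0)).filter (fun g => b + h ≤ (A ∩ Reg b ε g).card) with hGd
    have h2 : g0 ≤ Gd.card := by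
      by_contra hlt
      push Not at hlt
      have : Gd.card * (h * b) < g0 * (h * b) := Nat.mul_lt_mul_of_pos_right hlt hhb
      omega
    have h3 : ∏ g : Fin n0, psi ((2 : ℝ) ^ (h * b)) ε d g A =
        (1 + 1 / (2 : ℝ) ^ (h * b)) ^ Gd.card := by
      rw [← prod_const, hGd, prod_filter]
      refine prod_congr rfl fun g _ => ?_
      unfold psi
      by_cases hg : b + h ≤ (A ∩ Reg b ε g).card
      · rw [if_pos hg, if_neg (hbad g), if_pos hg]
      · rw [if_neg hg, if_neg hg]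
    rw [h3]
    apply pow_le_pow_right₀ _ h2
    have : (0 : ℝ) ≤ 1 / (2 : ℝ) ^ (h * b) := by positivity
    linarith
  · intro A _ _
    exact prod_nonneg fun g' _ => psi_nonneg (by positivity) ε d g' A

end Pool.Agent.H470R3.Kn
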