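import Mathlib
import Pool.Agent.H470R3.KnB

set_option autoImplicit false

namespace Pool.Agent.H470R3.Kn

open Finset

/-- an injective choice of leaders extends to an even grouping -/
lemma exists_grouping (k n0 h : ℕ) (hk : k = n0 * h) (hh : 0 < h) (d : Fin n0 → Fin k)
    (hd : Function.Injective d) :
    ∃ ε : Fin n0 × Fin h ≃ Fin k, ∀ g, (ε.symm (d g)).1 = g := by
  classical
  subst hk
  let ε0 : Fin n0 × Fin h ≃ Fin (n0 * h) := finProdFinEquiv
  let f : Fin n0 → Fin (n0 * h) := fun g => ε0 (g, ⟨0, hh⟩)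
  have hf : Function.Injective f := by
    intro g g' hgg
    have := ε0.injective hgg
    exact (Prod.mk.inj this).1
  let e : {x // x ∈ Set.range f} ≃ {x // x ∈ Set.range d} :=
    (Equiv.ofInjective f hf).symm.trans (Equiv.ofInjective d hd)
  refine ⟨ε0.trans e.extendSubtype, ?_⟩
  intro g
  have h1 : e.extendSubtype (f g) = d g := by
    rw [Equiv.extendSubtype_apply_of_mem e (f g) ⟨g, rfl⟩]
    have : (Equiv.ofInjective f hf).symm ⟨f g, ⟨g, rfl⟩⟩ = g := by
      rw [Equiv.symm_apply_eq]; rfl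
    simp only [e, Equiv.trans_apply, this]
    rfl
  rw [Equiv.symm_trans_apply, ← h1, Equiv.symm_apply_apply]
  simp [f]

variable {k b : ℕ}

/-- the level of typical columns is almost full -/
lemma bad_bound' (n0 h w g0 : ℕ) (hk : k = n0 * h) (hh : 0 < h) (hb : 0 < b)
    (hw : g0 * (h * b) + n0 * (b + h) ≤ w) (D E : Finset (Fin k)) (hDE : n0 ≤ (D \ E).card) :
    ((((CE b w E).filter (fun A => ∀ i ∈ D, ¬ ∀ y, (i, y) ∈ A)).card : ℕ) : ℝ) *
      (1 + 1 / (2 : ℝ) ^ (h * b)) ^ g0 ≤ ((CE b w E).card : ℝ) := by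
  classical
  obtain ⟨D0, hD0, hD0c⟩ := exists_subset_card_eq hDE
  let d : Fin n0 → Fin k := fun g => ((D0.equivFinOfCardEq hD0c).symm g : Fin k)
  have hdinj : Function.Injective d := by
    intro g g' hgg
    exact (D0.equivFinOfCardEq hD0c).symm.injective (Subtype.ext hgg)
  have hdm : ∀ g, d g ∈ D0 := fun g => ((D0.equivFinOfCardEq hD0c).symm g).2
  obtain ⟨ε, hε⟩ := exists_grouping k n0 h hk hh d hdinj
  have hdE : ∀ g, d g ∉ E := fun g => (mem_sdiff.1 (hD0 (hdm g))).2
  have hdD : ∀ g, d g ∈ D := fun g => (mem_sdiff.1 (hD0 (hdm g))).1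
  refine le_trans ?_ (bad_bound E w g0 ε d hε hdE hb hw (Nat.mul_pos hh hb))
  apply mul_le_mul_of_nonneg_right
  · have : ((CE b w E).filter (fun A => ∀ i ∈ D, ¬ ∀ y, (i, y) ∈ A)).card ≤
        ((CE b w E).filter (fun A => ∀ g, ¬ ∀ y, (d g, y) ∈ A)).card := by
      apply card_le_card
      intro A hA
      rw [mem_filter] at hA ⊢
      exact ⟨hA.1, fun g => hA.2 _ (hdD g)⟩
    exact_mod_cast this
  · positivity

lemma CE_card_le (w : ℕ) (E E2 : Finset (Fin k)) (h : E.card = E2.card) :
    (CE b w E).card ≤ (CE b w E2).card := by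
  classical
  let e : {x // x ∈ E} ≃ {x // x ∈ E2} := equivOfCardEq h
  let π : Equiv.Perm (Fin k) := e.extendSubtype
  have hπ : ∀ x, π x ∈ E2 ↔ x ∈ E := by
    intro x
    constructor
    · intro hx
      by_contra hxE
      exact (Equiv.extendSubtype_not_mem e x hxE) hx
    · intro hx
      exact Equiv.extendSubtype_mem e x hx
  have hinj : Function.Injective (fun x : Fin k × Fin b => (π x.1, x.2)) := by
    intro x y hxy
    simp only [Prod.mk.injEq, EmbeddingLike.apply_eq_iff_eq] at hxy
    exact Prod.ext hxy.1 hxy.2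
  refine card_le_card_of_injOn (fun A => A.image (fun x => (π x.1, x.2))) ?_ ?_
  · intro A hA
    rw [mem_coe, mem_CE] at hA
    rw [mem_coe, mem_CE]
    refine ⟨by rw [card_image_of_injective _ hinj, hA.1], ?_⟩
    ext i
    rw [mem_Mis]
    have h1 : i ∈ E2 ↔ π.symm i ∈ Mis A := by
      rw [hA.2, ← hπ]; simp
    rw [h1, mem_Mis]
    constructor
    · intro h y hy
      apply h y
      rw [mem_image]
      exact ⟨(π.symm i, y), hy, by simp⟩
    · intro h y hy
      rw [mem_image] at hy
      obtain ⟨x, hx, hxy⟩ := hy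
      apply h y
      have h2 : x = (π.symm i, y) := by
        apply Prod.ext
        · rw [← (Prod.mk.inj hxy).1]; simp
        · exact (Prod.mk.inj hxy).2
      rw [← h2]; exact hx
  · intro A _ B _ hAB
    exact image_injective hinj hAB

lemma CE_card_eq (w : ℕ) (E E2 : Finset (Fin k)) (h : E.card = E2.card) :
    (CE b w E).card = (CE b w E2).card :=
  le_antisymm (CE_card_le w E E2 h) (CE_card_le w E2 E h.symm)

/-- cardinality of a filtered level as a sum over the missed set -/
lemma sum_levels (w e : ℕ) (p : Finset (Fin k × Fin b) → Prop) [DecidablePred p] :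
    ((Slev k b w e).filter p).card =
      ∑ E ∈ powersetCard e (univ : Finset (Fin k)), ((CE b w E).filter p).card := by
  classical
  rw [card_eq_sum_card_fiberwise (f := fun A => Mis A) (t := powersetCard e univ)]
  · refine sum_congr rfl fun E hE => ?_
    congr 1
    ext A
    rw [mem_filter, mem_filter, mem_filter, mem_Slev, mem_CE]
    rw [mem_powersetCard] at hE
    constructor
    · rintro ⟨⟨⟨h1, h2⟩, h3⟩, h4⟩
      exact ⟨⟨h1, h4⟩, h3⟩
    · rintro ⟨⟨h1, h2⟩, h3⟩
      exact ⟨⟨⟨h1, by rw [h2, hE.2]⟩, h3⟩, h2⟩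
  · intro A hA
    rw [mem_coe, mem_filter, mem_Slev] at hA
    rw [mem_coe, mem_powersetCard]
    exact ⟨subset_univ _, hA.1.2⟩

lemma Slev_card (w : ℕ) (E : Finset (Fin k)) :
    (Slev k b w E.card).card = k.choose E.card * (CE b w E).card := by
  classical
  have h := sum_levels (k := k) (b := b) w E.card (fun _ => True)
  simp only [filter_true] at h
  rw [h]
  have : ∀ E2 ∈ powersetCard E.card (univ : Finset (Fin k)), (CE b w E2).card = (CE b w E).card := by
    intro E2 hE2
    rw [mem_powersetCard] at hE2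
    exact CE_card_eq w E2 E hE2.2
  rw [sum_congr rfl this, sum_const, card_powersetCard, card_univ, Fintype.card_fin, smul_eq_mul]

end Pool.Agent.H470R3.Kn
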