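import Mathlib

set_option autoImplicit false

namespace Pool.Agent.H470R3.Kn

open Finset

/-! binomial comparisons -/

lemma choose_down_both {n j L : ℕ} (h : n + 1 ≤ L * (j + 1)) :
    (n + 1).choose (j + 1) ≤ L * n.choose j := by
  have h1 := Nat.add_one_mul_choose_eq n j
  refine Nat.le_of_mul_le_mul_right ?_ (Nat.succ_pos j)
  calc (n + 1).choose (j + 1) * (j + 1) = (n + 1) * n.choose j := h1.symm
    _ ≤ (L * (j + 1)) * n.choose j := Nat.mul_le_mul_right _ h
    _ = _ := by simp only [Nat.succ_eq_add_one]; ring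

lemma choose_down_both_iter (L t : ℕ) : ∀ n j : ℕ, n + t ≤ L * (j + 1) →
    (n + t).choose (j + t) ≤ L ^ t * n.choose j := by
  induction t with
  | zero => intro n j _; simp
  | succ t ih =>
    intro n j h
    have h1 : (n + t + 1).choose (j + t + 1) ≤ L * (n + t).choose (j + t) := by
      apply choose_down_both
      refine le_trans (by omega : n + t + 1 ≤ n + (t + 1)) (le_trans h ?_)
      exact Nat.mul_le_mul_left _ (by omega)
    have h2 := ih n j (by omega)
    calc (n + (t + 1)).choose (j + (t + 1)) ≤ L * (n + t).choose (j + t) := h1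
      _ ≤ L * (L ^ t * n.choose j) := Nat.mul_le_mul_left _ h2
      _ = _ := by ring

lemma choose_down_left {n j : ℕ} (h : 2 * j ≤ n + 1) :
    (n + 1).choose j ≤ 2 * n.choose j := by
  have h1 := Nat.choose_mul_succ_eq n j
  have hpos : 0 < n + 1 := Nat.succ_pos n
  refine Nat.le_of_mul_le_mul_right ?_ hpos
  have h2 : n + 1 ≤ 2 * (n + 1 - j) := by omega
  calc (n + 1).choose j * (n + 1) ≤ (n + 1).choose j * (2 * (n + 1 - j)) :=
        Nat.mul_le_mul_left _ h2
    _ = 2 * ((n + 1).choose j * (n + 1 - j)) := by ring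
    _ = 2 * n.choose j * (n + 1) := by rw [← h1]; ring

lemma choose_down_left_iter (t : ℕ) : ∀ n j : ℕ, 2 * j ≤ n + 1 →
    (n + t).choose j ≤ 2 ^ t * n.choose j := by
  induction t with
  | zero => intro n j _; simp
  | succ t ih =>
    intro n j h
    have h1 : (n + t + 1).choose j ≤ 2 * (n + t).choose j := choose_down_left (by omega)
    calc (n + (t + 1)).choose j ≤ 2 * (n + t).choose j := h1
      _ ≤ 2 * (2 ^ t * n.choose j) := Nat.mul_le_mul_left _ (ih n j h)
      _ = _ := by ring

lemma choose_up_both_iter (t : ℕ) : ∀ n j : ℕ, n.choose j ≤ (n + t).choose (j + t) := by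
  induction t with
  | zero => intro n j; simp
  | succ t ih =>
    intro n j
    refine le_trans (ih n j) ?_
    show (n + t).choose (j + t) ≤ (n + t + 1).choose (j + t + 1)
    rw [Nat.choose_succ_succ]
    exact Nat.le_add_right _ _

lemma choose_ratio {q n j : ℕ} (h : n + 1 ≤ q * j) (hq : 1 ≤ q) :
    n.choose j * q ≤ (q - 1) * (n + 1).choose j := by
  have h1 := Nat.choose_mul_succ_eq n j
  rcases Nat.eq_zero_or_pos (n + 1 - j) with h0 | hpos
  · have : n.choose j = 0 := Nat.choose_eq_zero_of_lt (by omega)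
    rw [this]; simp
  · refine Nat.le_of_mul_le_mul_right ?_ (Nat.succ_pos n)
    have h2 : q * (n + 1 - j) ≤ (q - 1) * (n + 1) := by
      obtain ⟨p, rfl⟩ : ∃ p, q = p + 1 := ⟨q - 1, by omega⟩
      obtain ⟨r, hr⟩ : ∃ r, n + 1 = j + r := ⟨n + 1 - j, by omega⟩
      rw [hr] at h ⊢
      rw [Nat.add_sub_cancel_left, Nat.add_sub_cancel]
      nlinarith
    calc n.choose j * q * (n + 1) = q * (n.choose j * (n + 1)) := by ring
      _ = q * ((n + 1).choose j * (n + 1 - j)) := by rw [h1]
      _ = (n + 1).choose j * (q * (n + 1 - j)) := by ring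
      _ ≤ (n + 1).choose j * ((q - 1) * (n + 1)) := Nat.mul_le_mul_left _ h2
      _ = _ := by simp only [Nat.succ_eq_add_one]; ring

lemma choose_ratio_iter {q : ℕ} (hq : 1 ≤ q) (t : ℕ) : ∀ n j : ℕ, n + t ≤ q * j →
    n.choose j * q ^ t ≤ (q - 1) ^ t * (n + t).choose j := by
  induction t with
  | zero => intro n j _; simp
  | succ t ih =>
    intro n j h
    have h1 := ih n j (by omega)
    have h2 := choose_ratio (q := q) (n := n + t) (j := j) (by omega) hq
    calc n.choose j * q ^ (t + 1) = n.choose j * q ^ t * q := by ring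
      _ ≤ (q - 1) ^ t * (n + t).choose j * q := Nat.mul_le_mul_right _ h1
      _ = (q - 1) ^ t * ((n + t).choose j * q) := by ring
      _ ≤ (q - 1) ^ t * ((q - 1) * (n + t + 1).choose j) := Nat.mul_le_mul_left _ h2
      _ = (q - 1) ^ (t + 1) * (n + (t + 1)).choose j := by
        rw [pow_succ]; ring_nf

/-! rows -/

variable {k : ℕ} {R : Type} [Fintype R] [DecidableEq R]

/-- the rows with prescribed trace D on the special points -/
def RD (R : Type) [Fintype R] [DecidableEq R] (w : ℕ) (D : Finset (Fin k)) :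
    Finset (Finset (Fin k ⊕ R)) :=
  (powersetCard w univ).filter (fun A => A.toLeft = D)

lemma mem_RD {w : ℕ} {D : Finset (Fin k)} {A : Finset (Fin k ⊕ R)} :
    A ∈ RD R w D ↔ A.card = w ∧ A.toLeft = D := by
  simp [RD, mem_powersetCard]

lemma RD_card (w : ℕ) (D : Finset (Fin k)) (hD : D.card ≤ w) :
    (RD R w D).card = (Fintype.card R).choose (w - D.card) := by
  rw [← card_univ, ← card_powersetCard]
  symm
  refine card_bij (fun S _ => D.disjSum S) ?_ ?_ ?_
  · intro S hS
    rw [mem_powersetCard] at hS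
    rw [mem_RD, card_disjSum, hS.2]
    refine ⟨by omega, ?_⟩
    simp
  · intro S _ S' _ h
    have := congrArg toRight h
    simpa using this
  · intro A hA
    rw [mem_RD] at hA
    refine ⟨A.toRight, ?_, ?_⟩
    · rw [mem_powersetCard]
      refine ⟨subset_univ _, ?_⟩
      have := card_toLeft_add_card_toRight (u := A)
      rw [hA.2] at this
      omega
    · have := toLeft_disjSum_toRight (u := A)
      rw [hA.2] at this
      exact this

lemma RDT_card (w : ℕ) (D : Finset (Fin k)) (T : Finset R) (hD : D.card + T.card ≤ w) :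
    (Fintype.card R - T.card).choose (w - D.card - T.card) ≤
      ((RD R w D).filter (fun A => ∀ t ∈ T, Sum.inr t ∈ A)).card := by
  have h1 : (Fintype.card R - T.card) = (univ \ T).card := by
    rw [card_sdiff_of_subset (subset_univ _), card_univ]
  rw [h1, ← card_powersetCard]
  refine card_le_card_of_injOn (fun S => D.disjSum (T ∪ S)) ?_ ?_
  · intro S hS
    rw [mem_coe, mem_powersetCard] at hS
    have hdis : Disjoint T S := by
      rw [disjoint_left]
      intro x hxT hxS
      exact (mem_sdiff.1 (hS.1 hxS)).2 hxT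
    rw [mem_coe, mem_filter, mem_RD, card_disjSum, card_union_of_disjoint hdis, hS.2]
    refine ⟨⟨by omega, by simp⟩, ?_⟩
    intro t ht
    rw [inr_mem_disjSum]
    exact mem_union_left _ ht
  · intro S hS S' hS' h
    rw [mem_coe, mem_powersetCard] at hS hS'
    have h2 : T ∪ S = T ∪ S' := by
      have := congrArg toRight h
      simpa using this
    have e1 : S = (T ∪ S) \ T := by
      rw [union_sdiff_left]
      symm
      rw [Finset.sdiff_eq_self_iff_disjoint]
      rw [disjoint_left]
      intro x hxS hxT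
      exact (mem_sdiff.1 (hS.1 hxS)).2 hxT
    have e2 : S' = (T ∪ S') \ T := by
      rw [union_sdiff_left]
      symm
      rw [Finset.sdiff_eq_self_iff_disjoint]
      rw [disjoint_left]
      intro x hxS hxT
      exact (mem_sdiff.1 (hS'.1 hxS)).2 hxT
    rw [e1, e2, h2]

/-- prescribed elements are contained with decent probability -/
lemma RDT_bound (w L : ℕ) (D : Finset (Fin k)) (T : Finset R)
    (hD : D.card + T.card < w) (hL : Fintype.card R ≤ L * (w - D.card - T.card + 1)) :
    (RD R w D).card ≤ L ^ T.card *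
      ((RD R w D).filter (fun A => ∀ t ∈ T, Sum.inr t ∈ A)).card := by
  rw [RD_card w D (by omega)]
  refine le_trans ?_ (Nat.mul_le_mul_left _ (RDT_card w D T (by omega)))
  have hT : T.card ≤ Fintype.card R := card_le_univ T
  have h := choose_down_both_iter L T.card (Fintype.card R - T.card) (w - D.card - T.card)
    (by rw [Nat.sub_add_cancel hT]; exact hL)
  rw [Nat.sub_add_cancel hT, Nat.sub_add_cancel (by omega)] at h
  exact h

/-- the rows with trace of size d -/
def Rlev (k : ℕ) (R : Type) [Fintype R] [DecidableEq R] (w d : ℕ) :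
    Finset (Finset (Fin k ⊕ R)) :=
  (powersetCard w univ).filter (fun A => A.toLeft.card = d)

lemma mem_Rlev {w d : ℕ} {A : Finset (Fin k ⊕ R)} :
    A ∈ Rlev k R w d ↔ A.card = w ∧ A.toLeft.card = d := by
  simp [Rlev, mem_powersetCard]

lemma sum_Rlevels (w d : ℕ) (p : Finset (Fin k ⊕ R) → Prop) [DecidablePred p] :
    ((Rlev k R w d).filter p).card =
      ∑ D ∈ powersetCard d (univ : Finset (Fin k)), ((RD R w D).filter p).card := by
  classical
  rw [card_eq_sum_card_fiberwise (f := fun A => A.toLeft) (t := powersetCard d univ)]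
  · refine sum_congr rfl fun D hD => ?_
    congr 1
    ext A
    rw [mem_filter, mem_filter, mem_filter, mem_Rlev, mem_RD]
    rw [mem_powersetCard] at hD
    constructor
    · rintro ⟨⟨⟨h1, h2⟩, h3⟩, h4⟩
      exact ⟨⟨h1, h4⟩, h3⟩
    · rintro ⟨⟨h1, h2⟩, h3⟩
      exact ⟨⟨⟨h1, by rw [h2, hD.2]⟩, h3⟩, h2⟩
  · intro A hA
    rw [mem_coe, mem_filter, mem_Rlev] at hA
    rw [mem_coe, mem_powersetCard]
    exact ⟨subset_univ _, hA.1.2⟩

lemma Rlev_card (w d : ℕ) (hd : d ≤ w) :
    (Rlev k R w d).card = k.choose d * (Fintype.card R).choose (w - d) := by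
  classical
  have h := sum_Rlevels (k := k) (R := R) w d (fun _ => True)
  simp only [filter_true] at h
  rw [h]
  have : ∀ D ∈ powersetCard d (univ : Finset (Fin k)),
      (RD R w D).card = (Fintype.card R).choose (w - d) := by
    intro D hD
    rw [mem_powersetCard] at hD
    rw [RD_card w D (by omega), hD.2]
  rw [sum_congr rfl this, sum_const, card_powersetCard, card_univ, Fintype.card_fin, smul_eq_mul]

end Pool.Agent.H470R3.Kn
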