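import Mathlib
import Pool.Agent.H470R3.KnC
import Pool.Agent.H470R3.KnD

set_option autoImplicit false

namespace Pool.Agent.H470R3.Kn

open Finset

variable {k b W : ℕ}

/-- the intersecting relation between rows and columns -/
def Rel (g : Fin W → Finset (Fin k × Fin b)) (A : Finset (Fin k ⊕ Option (Fin W)))
    (B : Finset (Fin k × Fin b)) : Prop :=
  Mis B ⊆ A.toLeft ∧ ((∃ i ∈ A.toLeft, ∀ y, (i, y) ∈ B) ∨
    ((∀ v, Sum.inr (some v) ∈ A ∨ ¬ Disjoint (g v) B) ∧
      (Sum.inr none ∈ A ∨ ∃ u, Sum.inr (some u) ∈ A ∧ g u ⊆ B)))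

lemma Rel_intersecting (g : Fin W → Finset (Fin k × Fin b))
    {A A2 : Finset (Fin k ⊕ Option (Fin W))} {B B2 : Finset (Fin k × Fin b)}
    (h : Rel g A B) (h2 : Rel g A2 B2) (hd : Disjoint A A2) : ¬ Disjoint B B2 := by
  intro hd2
  have key : ∀ (A A2 : Finset (Fin k ⊕ Option (Fin W))) (B B2 : Finset (Fin k × Fin b)),
      Rel g A B → Rel g A2 B2 → Disjoint A A2 → Disjoint B B2 →
      ¬ (∃ i ∈ A.toLeft, ∀ y, (i, y) ∈ B) := by
    intro A A2 B B2 h h2 hd hd2
    rintro ⟨i, hi, hiB⟩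
    have hi2 : i ∉ A2.toLeft := by
      intro h3
      rw [mem_toLeft] at hi h3
      exact disjoint_left.1 hd hi h3
    have hi3 : i ∉ Mis B2 := fun h3 => hi2 (h2.1 h3)
    obtain ⟨y, hy⟩ := not_mem_Mis.1 hi3
    exact disjoint_left.1 hd2 (hiB y) hy
  have k1 := key A A2 B B2 h h2 hd hd2
  have k2 := key A2 A B2 B h2 h hd.symm hd2.symm
  obtain ⟨_, h1 | ⟨h3, h4⟩⟩ := h
  · exact k1 h1
  obtain ⟨_, h1 | ⟨h5, h6⟩⟩ := h2
  · exact k2 h1
  rcases h4 with h4 | ⟨u, hu, huB⟩
  · rcases h6 with h6 | ⟨u, hu, huB⟩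
    · exact disjoint_left.1 hd h4 h6
    · rcases h3 u with h7 | h7
      · exact disjoint_left.1 hd h7 hu
      · apply h7
        rw [disjoint_left]
        intro x hx hxB
        exact disjoint_left.1 hd2 hxB (huB hx)
  · rcases h5 u with h7 | h7
    · exact disjoint_left.1 hd hu h7
    · apply h7
      rw [disjoint_left]
      intro x hx hxB
      exact disjoint_left.1 hd2 (huB hx) hxB

/-- the points whose partner set is missed -/
def Zs (g : Fin W → Finset (Fin k × Fin b)) (B : Finset (Fin k × Fin b)) : Finset (Fin W) :=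
  univ.filter (fun v => Disjoint (g v) B)

open Classical in
/-- the columns adjacent to a family of rows -/
noncomputable def Nb (g : Fin W → Finset (Fin k × Fin b)) (w : ℕ)
    (𝒜 : Finset (Finset (Fin k ⊕ Option (Fin W)))) : Finset (Finset (Fin k × Fin b)) :=
  (powersetCard w univ).filter (fun B => ∃ A ∈ 𝒜, Rel g A B)

lemma mem_Nb {g : Fin W → Finset (Fin k × Fin b)} {w : ℕ}
    {𝒜 : Finset (Finset (Fin k ⊕ Option (Fin W)))} {B : Finset (Fin k × Fin b)} :
    B ∈ Nb g w 𝒜 ↔ B.card = w ∧ ∃ A ∈ 𝒜, Rel g A B := by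
  classical
  simp [Nb, mem_powersetCard]

/-- if a column is not reached then the family misses a proportion of every compatible class -/
lemma row_loss (g : Fin W → Finset (Fin k × Fin b)) (w z L : ℕ)
    (𝒜 : Finset (Finset (Fin k ⊕ Option (Fin W)))) (D : Finset (Fin k))
    (B : Finset (Fin k × Fin b)) (hBw : B.card = w) (hBD : Mis B ⊆ D) (hBN : B ∉ Nb g w 𝒜)
    (hZ : (Zs g B).card ≤ z) (hkz : k + (z + 1) < w) (hL1 : 1 ≤ L)
    (hL : W + 1 ≤ L * (w - k - z)) :
    ((((RD (Option (Fin W)) w D).filter (· ∈ 𝒜)).card : ℕ) : ℝ) ≤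
      (1 - 1 / (L : ℝ) ^ (z + 1)) * ((RD (Option (Fin W)) w D).card : ℝ) := by
  classical
  let T : Finset (Option (Fin W)) := insert none ((Zs g B).image some)
  have hTcard : T.card ≤ z + 1 := by
    refine le_trans (card_insert_le _ _) ?_
    have := card_image_le (s := Zs g B) (f := (some : Fin W → Option (Fin W)))
    omega
  have hDk : D.card ≤ k := by
    have := card_le_univ D
    rwa [Fintype.card_fin] at this
  have h1 := RDT_bound (R := Option (Fin W)) w L D T (by omega)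
    (by
      rw [Fintype.card_option, Fintype.card_fin]
      refine le_trans hL (Nat.mul_le_mul_left _ ?_)
      omega)
  set S := (RD (Option (Fin W)) w D).filter (fun A => ∀ t ∈ T, Sum.inr t ∈ A) with hS
  have hdis : Disjoint ((RD (Option (Fin W)) w D).filter (· ∈ 𝒜)) S := by
    rw [disjoint_left]
    intro A hA hAS
    rw [mem_filter] at hA hAS
    apply hBN
    rw [mem_Nb]
    refine ⟨hBw, A, hA.2, ?_, Or.inr ⟨?_, Or.inl ?_⟩⟩
    · rw [(mem_RD.1 hA.1).2]; exact hBD
    · intro v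
      by_cases hv : Disjoint (g v) B
      · left
        apply hAS.2
        apply mem_insert_of_mem
        apply mem_image_of_mem
        exact mem_filter.2 ⟨mem_univ _, hv⟩
      · exact Or.inr hv
    · exact hAS.2 _ (mem_insert_self _ _)
  have h2 : ((RD (Option (Fin W)) w D).filter (· ∈ 𝒜)).card + S.card ≤
      (RD (Option (Fin W)) w D).card := by
    rw [← card_union_of_disjoint hdis]
    apply card_le_card
    exact union_subset (filter_subset _ _) (filter_subset _ _)
  have h3 : (RD (Option (Fin W)) w D).card ≤ L ^ (z + 1) * S.card :=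
    le_trans h1 (Nat.mul_le_mul_right _ (Nat.pow_le_pow_right hL1 hTcard))
  have hLpos : (0 : ℝ) < (L : ℝ) ^ (z + 1) := by
    have : (0 : ℝ) < L := by exact_mod_cast hL1
    positivity
  have h3' : ((RD (Option (Fin W)) w D).card : ℝ) ≤ (L : ℝ) ^ (z + 1) * (S.card : ℝ) := by
    exact_mod_cast h3
  have h4 : ((RD (Option (Fin W)) w D).card : ℝ) / (L : ℝ) ^ (z + 1) ≤ S.card := by
    rw [div_le_iff₀ hLpos]; linarith
  have h2' : ((((RD (Option (Fin W)) w D).filter (· ∈ 𝒜)).card : ℕ) : ℝ) + (S.card : ℝ) ≤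
      ((RD (Option (Fin W)) w D).card : ℝ) := by exact_mod_cast h2
  have h5 : (1 - 1 / (L : ℝ) ^ (z + 1)) * ((RD (Option (Fin W)) w D).card : ℝ) =
      ((RD (Option (Fin W)) w D).card : ℝ) -
        ((RD (Option (Fin W)) w D).card : ℝ) / (L : ℝ) ^ (z + 1) := by
    ring
  rw [h5]
  linarith

/-- a row of the family with large trace reaches almost the whole cell -/
lemma col_gain (g : Fin W → Finset (Fin k × Fin b)) (n0 h w g0 : ℕ) (hk : k = n0 * h)
    (hh : 0 < h) (hb : 0 < b) (hw : g0 * (h * b) + n0 * (b + h) ≤ w)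
    (𝒜 : Finset (Finset (Fin k ⊕ Option (Fin W)))) (A : Finset (Fin k ⊕ Option (Fin W)))
    (hA : A ∈ 𝒜) (E : Finset (Fin k)) (hE : E ⊆ A.toLeft) (hAE : n0 ≤ (A.toLeft \ E).card) :
    (1 - 1 / (1 + 1 / (2 : ℝ) ^ (h * b)) ^ g0) * ((CE b w E).card : ℝ) ≤
      ((((CE b w E).filter (· ∈ Nb g w 𝒜)).card : ℕ) : ℝ) := by
  classical
  have h1 := bad_bound' (k := k) (b := b) n0 h w g0 hk hh hb hw A.toLeft E hAE
  set Q : ℝ := (1 + 1 / (2 : ℝ) ^ (h * b)) ^ g0 with hQ
  have hQpos : 0 < Q := by positivity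
  set bad := (CE b w E).filter (fun B => ∀ i ∈ A.toLeft, ¬ ∀ y, (i, y) ∈ B) with hbad
  have h2 : (CE b w E).card ≤ ((CE b w E).filter (· ∈ Nb g w 𝒜)).card + bad.card := by
    refine le_trans (card_le_card ?_) (card_union_le _ _)
    intro B hB
    rw [mem_union]
    by_cases hBb : B ∈ bad
    · exact Or.inr hBb
    · left
      rw [mem_filter]
      refine ⟨hB, mem_Nb.2 ⟨(mem_CE.1 hB).1, A, hA, ?_, Or.inl ?_⟩⟩
      · rw [(mem_CE.1 hB).2]; exact hE
      · rw [hbad, mem_filter, not_and] at hBb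
        have := hBb hB
        push Not at this
        exact this
  have h2' : ((CE b w E).card : ℝ) ≤
      ((((CE b w E).filter (· ∈ Nb g w 𝒜)).card : ℕ) : ℝ) + (bad.card : ℝ) := by
    exact_mod_cast h2
  have h3 : (bad.card : ℝ) ≤ ((CE b w E).card : ℝ) / Q := by
    rw [le_div_iff₀ hQpos]
    exact h1
  have h4 : (1 - 1 / Q) * ((CE b w E).card : ℝ) =
      ((CE b w E).card : ℝ) - ((CE b w E).card : ℝ) / Q := by ring
  rw [h4]
  linarith

/-- comparison of the densities in a linked pair of cells -/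
lemma local_ineq (g : Fin W → Finset (Fin k × Fin b)) (n0 h w g0 z L : ℕ) (hk : k = n0 * h)
    (hh : 0 < h) (hb : 0 < b) (hw : g0 * (h * b) + n0 * (b + h) ≤ w)
    (hZ : ∀ B : Finset (Fin k × Fin b), B.card = w → (Zs g B).card ≤ z)
    (hkz : k + (z + 1) < w) (hL1 : 1 ≤ L) (hL : W + 1 ≤ L * (w - k - z))
    (hβ : (L : ℝ) ^ (z + 1) ≤ (1 + 1 / (2 : ℝ) ^ (h * b)) ^ g0)
    (𝒜 : Finset (Finset (Fin k ⊕ Option (Fin W)))) (D E : Finset (Fin k)) (hED : E ⊆ D)
    (hDE : n0 ≤ (D \ E).card) :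
    ((((RD (Option (Fin W)) w D).filter (· ∈ 𝒜)).card : ℕ) : ℝ) * ((CE b w E).card : ℝ) ≤
      ((((CE b w E).filter (· ∈ Nb g w 𝒜)).card : ℕ) : ℝ) *
        ((RD (Option (Fin W)) w D).card : ℝ) := by
  classical
  set x : ℝ := ((((RD (Option (Fin W)) w D).filter (· ∈ 𝒜)).card : ℕ) : ℝ) with hx
  set n : ℝ := ((RD (Option (Fin W)) w D).card : ℝ) with hn
  set c : ℝ := ((CE b w E).card : ℝ) with hc
  set y : ℝ := ((((CE b w E).filter (· ∈ Nb g w 𝒜)).card : ℕ) : ℝ) with hy
  have hn0' : 0 ≤ n := by positivity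
  have hc0 : 0 ≤ c := by positivity
  have hxn : x ≤ n := by
    rw [hx, hn]; exact_mod_cast card_le_card (filter_subset _ _)
  by_cases hall : ∀ B ∈ CE b w E, B ∈ Nb g w 𝒜
  · have : y = c := by
      rw [hy, hc, filter_true_of_mem hall]
    rw [this, mul_comm c n]
    exact mul_le_mul_of_nonneg_right hxn hc0
  · push Not at hall
    obtain ⟨B, hB, hBN⟩ := hall
    rcases Nat.eq_zero_or_pos ((RD (Option (Fin W)) w D).filter (· ∈ 𝒜)).card with h0 | hpos
    · have : x = 0 := by rw [hx, h0]; simp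
      rw [this, zero_mul]
      exact mul_nonneg (by rw [hy]; positivity) hn0'
    · obtain ⟨A, hA⟩ := card_pos.1 hpos
      rw [mem_filter, mem_RD] at hA
      have h1 := row_loss g w z L 𝒜 D B (mem_CE.1 hB).1 (by rw [(mem_CE.1 hB).2]; exact hED) hBN
        (hZ B (mem_CE.1 hB).1) hkz hL1 hL
      have h2 := col_gain g n0 h w g0 hk hh hb hw 𝒜 A hA.2 E (by rw [hA.1.2]; exact hED)
        (by rw [hA.1.2]; exact hDE)
      rw [← hx, ← hn] at h1
      rw [← hc, ← hy] at h2
      have hLpos : (0 : ℝ) < (L : ℝ) ^ (z + 1) := by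
        have : (0 : ℝ) < L := by exact_mod_cast hL1
        positivity
      have h3 : 1 / (1 + 1 / (2 : ℝ) ^ (h * b)) ^ g0 ≤ 1 / (L : ℝ) ^ (z + 1) :=
        one_div_le_one_div_of_le hLpos hβ
      calc x * c ≤ ((1 - 1 / (L : ℝ) ^ (z + 1)) * n) * c := mul_le_mul_of_nonneg_right h1 hc0
        _ = ((1 - 1 / (L : ℝ) ^ (z + 1)) * c) * n := by ring
        _ ≤ ((1 - 1 / (1 + 1 / (2 : ℝ) ^ (h * b)) ^ g0) * c) * n := by
            apply mul_le_mul_of_nonneg_right _ hn0'
            apply mul_le_mul_of_nonneg_right _ hc0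
            linarith
        _ ≤ y * n := mul_le_mul_of_nonneg_right h2 hn0'

lemma card_supersets (d : ℕ) (E : Finset (Fin k)) (_hE : E.card ≤ d) :
    ((powersetCard d (univ : Finset (Fin k))).filter (fun D => E ⊆ D)).card ≤
      (k - E.card).choose (d - E.card) := by
  classical
  have h1 : k - E.card = (univ \ E).card := by
    rw [card_sdiff_of_subset (subset_univ _), card_univ, Fintype.card_fin]
  rw [h1, ← card_powersetCard]
  refine card_le_card_of_injOn (fun D => D \ E) ?_ ?_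
  · intro D hD
    rw [mem_coe, mem_filter, mem_powersetCard] at hD
    rw [mem_coe, mem_powersetCard]
    refine ⟨sdiff_subset_sdiff (subset_univ _) (le_refl _), ?_⟩
    rw [card_sdiff_of_subset hD.2, hD.1.2]
  · intro D hD D' hD' h
    rw [mem_coe, mem_filter] at hD hD'
    have h2 : D \ E = D' \ E := h
    rw [← sdiff_union_of_subset hD.2, ← sdiff_union_of_subset hD'.2, h2]

/-- comparison of the densities in a linked pair of levels -/
lemma level_ineq (g : Fin W → Finset (Fin k × Fin b)) (n0 h w g0 z L : ℕ) (hk : k = n0 * h)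
    (hh : 0 < h) (hb : 0 < b) (hw : g0 * (h * b) + n0 * (b + h) ≤ w)
    (hZ : ∀ B : Finset (Fin k × Fin b), B.card = w → (Zs g B).card ≤ z)
    (hkz : k + (z + 1) < w) (hL1 : 1 ≤ L) (hL : W + 1 ≤ L * (w - k - z))
    (hβ : (L : ℝ) ^ (z + 1) ≤ (1 + 1 / (2 : ℝ) ^ (h * b)) ^ g0)
    (𝒜 : Finset (Finset (Fin k ⊕ Option (Fin W)))) (d e : ℕ) (hde : e + n0 ≤ d) (hdk : d ≤ k) :
    ((((Rlev k (Option (Fin W)) w d).filter (· ∈ 𝒜)).card : ℕ) : ℝ) *
      ((Slev k b w e).card : ℝ) ≤
      ((((Slev k b w e).filter (· ∈ Nb g w 𝒜)).card : ℕ) : ℝ) *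
        ((Rlev k (Option (Fin W)) w d).card : ℝ) := by
  classical
  -- the common sizes
  obtain ⟨E0, hE0⟩ : ∃ E0 : Finset (Fin k), E0.card = e := by
    obtain ⟨E0, _, h⟩ := exists_subset_card_eq (s := (univ : Finset (Fin k))) (n := e)
      (by rw [card_univ, Fintype.card_fin]; omega)
    exact ⟨E0, h⟩
  have hs : ((Slev k b w e).card : ℝ) = (k.choose e : ℝ) * ((CE b w E0).card : ℝ) := by
    have := Slev_card (k := k) (b := b) w E0
    rw [hE0] at this
    exact_mod_cast this
  have hr : ((Rlev k (Option (Fin W)) w d).card : ℝ) =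
      (k.choose d : ℝ) * ((W + 1).choose (w - d) : ℝ) := by
    have := Rlev_card (k := k) (R := Option (Fin W)) w d (by omega)
    rw [Fintype.card_option, Fintype.card_fin] at this
    exact_mod_cast this
  set c : ℝ := ((CE b w E0).card : ℝ) with hc
  set n : ℝ := ((W + 1).choose (w - d) : ℝ) with hn
  have hX : ((((Rlev k (Option (Fin W)) w d).filter (· ∈ 𝒜)).card : ℕ) : ℝ) =
      ∑ D ∈ powersetCard d (univ : Finset (Fin k)),
        ((((RD (Option (Fin W)) w D).filter (· ∈ 𝒜)).card : ℕ) : ℝ) := by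
    have := sum_Rlevels (k := k) (R := Option (Fin W)) w d (· ∈ 𝒜)
    exact_mod_cast this
  have hY : ((((Slev k b w e).filter (· ∈ Nb g w 𝒜)).card : ℕ) : ℝ) =
      ∑ E ∈ powersetCard e (univ : Finset (Fin k)),
        ((((CE b w E).filter (· ∈ Nb g w 𝒜)).card : ℕ) : ℝ) := by
    have := sum_levels (k := k) (b := b) w e (· ∈ Nb g w 𝒜)
    exact_mod_cast this
  -- double counting
  have hdc : (d.choose e : ℝ) *
      ((((Rlev k (Option (Fin W)) w d).filter (· ∈ 𝒜)).card : ℕ) : ℝ) * c ≤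
      ((k - e).choose (d - e) : ℝ) *
        ((((Slev k b w e).filter (· ∈ Nb g w 𝒜)).card : ℕ) : ℝ) * n := by
    calc (d.choose e : ℝ) *
        ((((Rlev k (Option (Fin W)) w d).filter (· ∈ 𝒜)).card : ℕ) : ℝ) * c
        = ∑ D ∈ powersetCard d (univ : Finset (Fin k)), ∑ _E ∈ powersetCard e D,
            ((((RD (Option (Fin W)) w D).filter (· ∈ 𝒜)).card : ℕ) : ℝ) * c := by
          rw [hX, mul_sum, sum_mul]
          refine sum_congr rfl fun D hD => ?_
          rw [mem_powersetCard] at hD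
          rw [sum_const, card_powersetCard, hD.2, nsmul_eq_mul]
          ring
      _ ≤ ∑ D ∈ powersetCard d (univ : Finset (Fin k)), ∑ E ∈ powersetCard e D,
            ((((CE b w E).filter (· ∈ Nb g w 𝒜)).card : ℕ) : ℝ) * n := by
          refine sum_le_sum fun D hD => sum_le_sum fun E hE => ?_
          rw [mem_powersetCard] at hD hE
          have h1 := local_ineq g n0 h w g0 z L hk hh hb hw hZ hkz hL1 hL hβ 𝒜 D E hE.1
            (by rw [card_sdiff_of_subset hE.1, hD.2, hE.2]; omega)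
          have h2 : ((CE b w E).card : ℝ) = c := by
            rw [hc, CE_card_eq w E E0 (by rw [hE.2, hE0])]
          have h3 : ((RD (Option (Fin W)) w D).card : ℝ) = n := by
            rw [RD_card w D (by omega), Fintype.card_option, Fintype.card_fin, hD.2]
          rw [h2, h3] at h1
          exact h1
      _ = ∑ E ∈ powersetCard e (univ : Finset (Fin k)),
            ∑ _D ∈ (powersetCard d (univ : Finset (Fin k))).filter (fun D => E ⊆ D),
            ((((CE b w E).filter (· ∈ Nb g w 𝒜)).card : ℕ) : ℝ) * n := by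
          refine sum_comm' ?_
          intro D E
          simp only [mem_powersetCard, mem_filter, subset_univ, true_and]
          tauto
      _ ≤ ∑ E ∈ powersetCard e (univ : Finset (Fin k)), ((k - e).choose (d - e) : ℝ) *
            (((((CE b w E).filter (· ∈ Nb g w 𝒜)).card : ℕ) : ℝ) * n) := by
          refine sum_le_sum fun E hE => ?_
          rw [mem_powersetCard] at hE
          rw [sum_const, nsmul_eq_mul]
          apply mul_le_mul_of_nonneg_right _ (by positivity)
          have := card_supersets (k := k) d E (by omega)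
          rw [hE.2] at this
          exact_mod_cast this
      _ = _ := by
          rw [hY, mul_sum, sum_mul]
          refine sum_congr rfl fun E _ => ?_
          ring
  have hid : (k.choose e : ℝ) * ((k - e).choose (d - e) : ℝ) =
      (k.choose d : ℝ) * (d.choose e : ℝ) := by
    have := Nat.choose_mul (n := k) (k := d) (s := e) (by omega)
    exact_mod_cast this.symm
  have hpos : (0 : ℝ) < (d.choose e : ℝ) := by
    exact_mod_cast Nat.choose_pos (by omega)
  rw [hs, hr]
  refine le_of_mul_le_mul_left ?_ hpos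
  calc (d.choose e : ℝ) *
      (((((Rlev k (Option (Fin W)) w d).filter (· ∈ 𝒜)).card : ℕ) : ℝ) *
        ((k.choose e : ℝ) * c))
      = (k.choose e : ℝ) * ((d.choose e : ℝ) *
        ((((Rlev k (Option (Fin W)) w d).filter (· ∈ 𝒜)).card : ℕ) : ℝ) * c) := by ring
    _ ≤ (k.choose e : ℝ) * (((k - e).choose (d - e) : ℝ) *
        ((((Slev k b w e).filter (· ∈ Nb g w 𝒜)).card : ℕ) : ℝ) * n) :=
        mul_le_mul_of_nonneg_left hdc (by positivity)
    _ = ((k.choose e : ℝ) * ((k - e).choose (d - e) : ℝ)) *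
        ((((Slev k b w e).filter (· ∈ Nb g w 𝒜)).card : ℕ) : ℝ) * n := by ring
    _ = _ := by rw [hid]; ring

end Pool.Agent.H470R3.Kn
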