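import Mathlib
import Pool.Agent.H470R3.KnE

set_option autoImplicit false

namespace Pool.Agent.H470R3.Kn

open Finset

lemma split_rows (f : ℕ → ℝ) (n0 M : ℕ) :
    ∑ d ∈ range (2 * n0 + M + 1), f d = ∑ d ∈ range (2 * n0), f d +
      (f (2 * n0) + ∑ j ∈ range M, f (2 * n0 + (j + 1))) := by
  rw [show 2 * n0 + M + 1 = 2 * n0 + (M + 1) by ring, sum_range_add,
    sum_range_succ' (fun x => f (2 * n0 + x)) M]
  simp only [add_zero]
  ring

lemma split_cols (f : ℕ → ℝ) (n0 M : ℕ) :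
    ∑ e ∈ range (2 * n0 + M + 1), f e = f 0 + ∑ j ∈ range n0, f (j + 1) +
      ∑ j ∈ range M, f (n0 + (j + 1)) + ∑ j ∈ range n0, f (n0 + M + (j + 1)) := by
  rw [sum_range_succ', show 2 * n0 + M = n0 + M + n0 by ring, sum_range_add, sum_range_add]
  simp only [add_assoc]
  ring

lemma hall_numeric (n0 M : ℕ) (X r Y s : ℕ → ℝ)
    (hX : ∀ d, 0 ≤ X d) (hXr : ∀ d, X d ≤ r d) (hY : ∀ e, 0 ≤ Y e)
    (hlev : ∀ d e, e + n0 ≤ d → d ≤ 2 * n0 + M → X d * s e ≤ Y e * r d)
    (hN4 : ∀ e, n0 < e → e ≤ n0 + M → s e ≤ r (e + n0))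
    (hN5 : ∀ e, n0 + M < e → e ≤ 2 * n0 + M → s e = 0)
    (hN : ∑ d ∈ range (2 * n0 + M + 1), r d = ∑ e ∈ range (2 * n0 + M + 1), s e)
    (hf : ∀ α : ℝ, 0 ≤ α → α ≤ 1 → (∃ d, 2 * n0 ≤ d ∧ d ≤ 2 * n0 + M ∧ α = X d / r d) →
        ∑ d ∈ range (2 * n0), X d + α * (s 0 - ∑ d ∈ range (2 * n0), r d) ≤ Y 0) :
    ∑ d ∈ range (2 * n0 + M + 1), X d ≤ ∑ e ∈ range (2 * n0 + M + 1), Y e := by
  classical
  obtain ⟨d0, hd0, hmax⟩ := exists_max_image (Icc (2 * n0) (2 * n0 + M)) (fun d => X d / r d)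
    ⟨2 * n0, by simp⟩
  rw [mem_Icc] at hd0
  obtain ⟨α, hα⟩ : ∃ α, α = X d0 / r d0 := ⟨_, rfl⟩
  have hr : ∀ d, 0 ≤ r d := fun d => le_trans (hX d) (hXr d)
  have hα0 : 0 ≤ α := by rw [hα]; exact div_nonneg (hX _) (hr _)
  have hα1 : α ≤ 1 := by rw [hα]; exact div_le_one_of_le₀ (hXr _) (hr _)
  have hXα : ∀ d, 2 * n0 ≤ d → d ≤ 2 * n0 + M → X d ≤ α * r d := by
    intro d h1 h2
    have h3 : X d / r d ≤ X d0 / r d0 := hmax d (mem_Icc.2 ⟨h1, h2⟩)
    rw [← hα] at h3
    rcases eq_or_lt_of_le (hr d) with h | h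
    · have h4 := hXr d
      rw [← h] at h4 ⊢
      linarith
    · rwa [div_le_iff₀ h] at h3
  have hYα : ∀ e, e ≤ n0 → α * s e ≤ Y e := by
    intro e he
    have h1 := hlev d0 e (by omega) hd0.2
    rcases eq_or_lt_of_le (hr d0) with h | h
    · have : α = 0 := by rw [hα, ← h, div_zero]
      rw [this, zero_mul]; exact hY e
    · rw [hα, div_mul_eq_mul_div, div_le_iff₀ h]; exact h1
  have hstep : ∀ j, j < M → X (2 * n0 + (j + 1)) ≤
      α * (r (2 * n0 + (j + 1)) - s (n0 + (j + 1))) + Y (n0 + (j + 1)) := by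
    intro j hj
    have h1 := hlev (2 * n0 + (j + 1)) (n0 + (j + 1)) (by omega) (by omega)
    have h2 := hN4 (n0 + (j + 1)) (by omega) (by omega)
    have h3 : n0 + (j + 1) + n0 = 2 * n0 + (j + 1) := by omega
    rw [h3] at h2
    have h4 := hXα (2 * n0 + (j + 1)) (by omega) (by omega)
    have h5 := hY (n0 + (j + 1))
    have h6 := hXr (2 * n0 + (j + 1))
    rcases eq_or_lt_of_le (hr (2 * n0 + (j + 1))) with h | h
    · rw [← h] at h2 h6 ⊢
      have : 0 ≤ α * (0 - s (n0 + (j + 1))) := mul_nonneg hα0 (by linarith)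
      linarith
    · have h7 : 0 ≤ r (2 * n0 + (j + 1)) - s (n0 + (j + 1)) := by linarith
      have h8 : X (2 * n0 + (j + 1)) * (r (2 * n0 + (j + 1)) - s (n0 + (j + 1))) ≤
          α * r (2 * n0 + (j + 1)) * (r (2 * n0 + (j + 1)) - s (n0 + (j + 1))) :=
        mul_le_mul_of_nonneg_right h4 h7
      refine le_of_mul_le_mul_right ?_ h
      calc X (2 * n0 + (j + 1)) * r (2 * n0 + (j + 1))
          = X (2 * n0 + (j + 1)) * (r (2 * n0 + (j + 1)) - s (n0 + (j + 1))) +
            X (2 * n0 + (j + 1)) * s (n0 + (j + 1)) := by ring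
        _ ≤ α * r (2 * n0 + (j + 1)) * (r (2 * n0 + (j + 1)) - s (n0 + (j + 1))) +
            Y (n0 + (j + 1)) * r (2 * n0 + (j + 1)) := add_le_add h8 h1
        _ = _ := by ring
  have hsum1 : ∑ j ∈ range M, X (2 * n0 + (j + 1)) ≤
      α * (∑ j ∈ range M, r (2 * n0 + (j + 1)) - ∑ j ∈ range M, s (n0 + (j + 1))) +
        ∑ j ∈ range M, Y (n0 + (j + 1)) := by
    refine le_trans (sum_le_sum fun j hj => hstep j (mem_range.1 hj)) (le_of_eq ?_)
    rw [sum_add_distrib, ← mul_sum, sum_sub_distrib]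
  have hsum2 : α * ∑ j ∈ range n0, s (j + 1) ≤ ∑ j ∈ range n0, Y (j + 1) := by
    rw [mul_sum]
    refine sum_le_sum fun j hj => hYα _ ?_
    have := mem_range.1 hj
    omega
  have hsum3 : ∑ j ∈ range n0, s (n0 + M + (j + 1)) = 0 := by
    refine sum_eq_zero fun j hj => hN5 _ (by omega) ?_
    have := mem_range.1 hj
    omega
  have hsum4 : 0 ≤ ∑ j ∈ range n0, Y (n0 + M + (j + 1)) := sum_nonneg fun j _ => hY _
  have hfα := hf α hα0 hα1 ⟨d0, hd0.1, hd0.2, hα⟩
  have hX2 := hXα (2 * n0) (le_refl _) (by omega)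
  rw [split_rows r, split_cols s, hsum3] at hN
  rw [split_rows X, split_cols Y]
  have hN' : r (2 * n0) + ∑ j ∈ range M, r (2 * n0 + (j + 1)) - ∑ j ∈ range M, s (n0 + (j + 1)) =
      s 0 - ∑ d ∈ range (2 * n0), r d + ∑ j ∈ range n0, s (j + 1) := by linarith
  have hN2 : α * r (2 * n0) + α * (∑ j ∈ range M, r (2 * n0 + (j + 1)) -
      ∑ j ∈ range M, s (n0 + (j + 1))) =
      α * (s 0 - ∑ d ∈ range (2 * n0), r d) + α * ∑ j ∈ range n0, s (j + 1) := by
    rw [← mul_add, ← mul_add, ← hN']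
    ring
  linarith

variable {k b W : ℕ}

lemma exists_u (w : ℕ) (A : Finset (Fin k ⊕ Option (Fin W))) (hA : A.card = w)
    (hk : k + 1 < w) : ∃ u, Sum.inr (some u) ∈ A := by
  classical
  by_contra hcon
  push Not at hcon
  have h1 : A.toRight ⊆ {none} := by
    intro x hx
    rw [mem_toRight] at hx
    cases x with
    | none => simp
    | some u => exact absurd hx (hcon u)
  have h2 := card_le_card h1
  have h3 := card_toLeft_add_card_toRight (u := A)
  have h4 := card_le_univ A.toLeft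
  rw [Fintype.card_fin] at h4
  rw [card_singleton] at h2
  omega

lemma Cont_sub (g : Fin W → Finset (Fin k × Fin b)) (w : ℕ)
    (𝒜 : Finset (Finset (Fin k ⊕ Option (Fin W)))) (A : Finset (Fin k ⊕ Option (Fin W)))
    (hA : A ∈ 𝒜) (u : Fin W) (hu : Sum.inr (some u) ∈ A)
    (hZ0 : ∀ B : Finset (Fin k × Fin b), B.card = w → Mis B = ∅ → Zs g B = ∅) :
    Cont (g u) w ⊆ (Slev k b w 0).filter (· ∈ Nb g w 𝒜) := by
  classical
  intro B hB
  rw [Cont, mem_filter] at hB
  rw [mem_filter]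
  have h0 : Mis B = ∅ := card_eq_zero.1 (mem_Slev.1 hB.1).2
  refine ⟨hB.1, mem_Nb.2 ⟨(mem_Slev.1 hB.1).1, A, hA, ?_, Or.inr ⟨?_, Or.inr ⟨u, hu, hB.2⟩⟩⟩⟩
  · rw [h0]; exact empty_subset _
  · intro v
    right
    intro hd
    have h1 := hZ0 B (mem_Slev.1 hB.1).1 h0
    have h2 : v ∈ Zs g B := mem_filter.2 ⟨mem_univ _, hd⟩
    rw [h1] at h2
    exact absurd h2 (notMem_empty _)

/-- if some column missing no block is not reached, every level loses a proportion -/
lemma level_loss (g : Fin W → Finset (Fin k × Fin b)) (w z L : ℕ)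
    (𝒜 : Finset (Finset (Fin k ⊕ Option (Fin W))))
    (B : Finset (Fin k × Fin b)) (hBw : B.card = w) (hB0 : Mis B = ∅) (hBN : B ∉ Nb g w 𝒜)
    (hZ : (Zs g B).card ≤ z) (hkz : k + (z + 1) < w) (hL1 : 1 ≤ L)
    (hL : W + 1 ≤ L * (w - k - z)) (d : ℕ) :
    ((((Rlev k (Option (Fin W)) w d).filter (· ∈ 𝒜)).card : ℕ) : ℝ) ≤
      (1 - 1 / (L : ℝ) ^ (z + 1)) * ((Rlev k (Option (Fin W)) w d).card : ℝ) := by
  classical
  have h1 : ((((Rlev k (Option (Fin W)) w d).filter (· ∈ 𝒜)).card : ℕ) : ℝ) =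
      ∑ D ∈ powersetCard d (univ : Finset (Fin k)),
        ((((RD (Option (Fin W)) w D).filter (· ∈ 𝒜)).card : ℕ) : ℝ) := by
    have := sum_Rlevels (k := k) (R := Option (Fin W)) w d (· ∈ 𝒜)
    exact_mod_cast this
  have h2 : ((Rlev k (Option (Fin W)) w d).card : ℝ) =
      ∑ D ∈ powersetCard d (univ : Finset (Fin k)), ((RD (Option (Fin W)) w D).card : ℝ) := by
    have := sum_Rlevels (k := k) (R := Option (Fin W)) w d (fun _ => True)
    simp only [filter_true] at this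
    exact_mod_cast this
  rw [h1, h2, mul_sum]
  refine sum_le_sum fun D _ => ?_
  exact row_loss g w z L 𝒜 D B hBw (by rw [hB0]; exact empty_subset _) hBN hZ hkz hL1 hL

theorem hall_ineq (g : Fin W → Finset (Fin k × Fin b)) (n0 h w g0 z L M : ℕ) (hk : k = n0 * h)
    (hkM : k = 2 * n0 + M)
    (hh : 0 < h) (hb : 0 < b) (hw : g0 * (h * b) + n0 * (b + h) ≤ w)
    (hZ : ∀ B : Finset (Fin k × Fin b), B.card = w → (Zs g B).card ≤ z)
    (hZ0 : ∀ B : Finset (Fin k × Fin b), B.card = w → Mis B = ∅ → Zs g B = ∅)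
    (hkz : k + (z + 1) < w) (hL1 : 1 ≤ L) (hL : W + 1 ≤ L * (w - k - z))
    (hβ : (L : ℝ) ^ (z + 1) ≤ (1 + 1 / (2 : ℝ) ^ (h * b)) ^ g0)
    (hsum : ∑ d ∈ range (k + 1), (Rlev k (Option (Fin W)) w d).card =
      ∑ e ∈ range (k + 1), (Slev k b w e).card)
    (hN3 : ∀ u, ∑ d ∈ range (2 * n0), (Rlev k (Option (Fin W)) w d).card ≤ (Cont (g u) w).card)
    (hN4 : ∀ e, n0 < e → e + n0 ≤ k →
      (Slev k b w e).card ≤ (Rlev k (Option (Fin W)) w (e + n0)).card)
    (hN5 : ∀ e, k < e + n0 → e ≤ k → (Slev k b w e).card = 0)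
    (hW : 0 < W)
    (𝒜 : Finset (Finset (Fin k ⊕ Option (Fin W)))) (h𝒜 : ∀ A ∈ 𝒜, A.card = w) :
    𝒜.card ≤ (Nb g w 𝒜).card := by
  classical
  set X : ℕ → ℝ := fun d => ((((Rlev k (Option (Fin W)) w d).filter (· ∈ 𝒜)).card : ℕ) : ℝ)
    with hXdef
  set r : ℕ → ℝ := fun d => ((Rlev k (Option (Fin W)) w d).card : ℝ) with hrdef
  set Y : ℕ → ℝ := fun e => ((((Slev k b w e).filter (· ∈ Nb g w 𝒜)).card : ℕ) : ℝ) with hYdef
  set s : ℕ → ℝ := fun e => ((Slev k b w e).card : ℝ) with hsdef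
  have hcard1 : ((𝒜.card : ℕ) : ℝ) = ∑ d ∈ range (k + 1), X d := by
    have h1 : 𝒜.card = ∑ d ∈ range (k + 1),
        ((Rlev k (Option (Fin W)) w d).filter (· ∈ 𝒜)).card := by
      rw [card_eq_sum_card_fiberwise (f := fun A : Finset (Fin k ⊕ Option (Fin W)) =>
        A.toLeft.card) (t := range (k + 1))]
      · refine sum_congr rfl fun d _ => ?_
        congr 1
        ext A
        rw [mem_filter, mem_filter, mem_Rlev]
        constructor
        · rintro ⟨h1, h2⟩
          exact ⟨⟨h𝒜 A h1, h2⟩, h1⟩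
        · rintro ⟨⟨_, h2⟩, h1⟩
          exact ⟨h1, h2⟩
      · intro A _
        rw [mem_coe, mem_range]
        have := card_le_univ A.toLeft
        rw [Fintype.card_fin] at this
        show A.toLeft.card < k + 1
        omega
    rw [h1, Nat.cast_sum]
  have hcard2 : (((Nb g w 𝒜).card : ℕ) : ℝ) = ∑ e ∈ range (k + 1), Y e := by
    have h1 : (Nb g w 𝒜).card = ∑ e ∈ range (k + 1),
        ((Slev k b w e).filter (· ∈ Nb g w 𝒜)).card := by
      rw [card_eq_sum_card_fiberwise (f := fun B : Finset (Fin k × Fin b) => (Mis B).card)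
        (t := range (k + 1))]
      · refine sum_congr rfl fun e _ => ?_
        congr 1
        ext B
        rw [mem_filter, mem_filter, mem_Slev]
        constructor
        · rintro ⟨h1, h2⟩
          exact ⟨⟨(mem_Nb.1 h1).1, h2⟩, h1⟩
        · rintro ⟨⟨_, h2⟩, h1⟩
          exact ⟨h1, h2⟩
      · intro B _
        rw [mem_coe, mem_range]
        have := card_le_univ (Mis B)
        rw [Fintype.card_fin] at this
        show (Mis B).card < k + 1
        omega
    rw [h1, Nat.cast_sum]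
  have hX : ∀ d, 0 ≤ X d := fun d => Nat.cast_nonneg _
  have hXr : ∀ d, X d ≤ r d := by
    intro d
    show ((((Rlev k (Option (Fin W)) w d).filter (· ∈ 𝒜)).card : ℕ) : ℝ) ≤
      ((Rlev k (Option (Fin W)) w d).card : ℝ)
    exact_mod_cast card_le_card (filter_subset _ _)
  have hr : ∀ d, 0 ≤ r d := fun d => Nat.cast_nonneg _
  have hY : ∀ e, 0 ≤ Y e := fun e => Nat.cast_nonneg _
  have hR3 : ∀ u, ∑ d ∈ range (2 * n0), r d ≤ ((Cont (g u) w).card : ℝ) := by
    intro u
    have := hN3 u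
    show ∑ d ∈ range (2 * n0), ((Rlev k (Option (Fin W)) w d).card : ℝ) ≤
      ((Cont (g u) w).card : ℝ)
    exact_mod_cast this
  have hXR : ∑ d ∈ range (2 * n0), X d ≤ ∑ d ∈ range (2 * n0), r d :=
    sum_le_sum fun d _ => hXr d
  have hRs : ∑ d ∈ range (2 * n0), r d ≤ s 0 := by
    refine le_trans (hR3 ⟨0, hW⟩) ?_
    have : (Cont (g ⟨0, hW⟩) w).card ≤ (Slev k b w 0).card := card_le_card (filter_subset _ _)
    show _ ≤ ((Slev k b w 0).card : ℝ)
    exact_mod_cast this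
  have hmain : ∑ d ∈ range (2 * n0 + M + 1), X d ≤ ∑ e ∈ range (2 * n0 + M + 1), Y e := by
    refine hall_numeric n0 M X r Y s hX hXr hY ?_ ?_ ?_ ?_ ?_
    · intro d e h1 h2
      exact level_ineq g n0 h w g0 z L hk hh hb hw hZ hkz hL1 hL hβ 𝒜 d e h1 (by omega)
    · intro e h1 h2
      have := hN4 e h1 (by omega)
      show ((Slev k b w e).card : ℝ) ≤ ((Rlev k (Option (Fin W)) w (e + n0)).card : ℝ)
      exact_mod_cast this
    · intro e h1 h2
      have := hN5 e (by omega) (by omega)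
      show ((Slev k b w e).card : ℝ) = 0
      exact_mod_cast this
    · rw [← hkM]
      show ∑ d ∈ range (k + 1), ((Rlev k (Option (Fin W)) w d).card : ℝ) =
        ∑ e ∈ range (k + 1), ((Slev k b w e).card : ℝ)
      exact_mod_cast hsum
    · intro α hα0 hα1 hαd
      obtain ⟨d, hd1, hd2, hα⟩ := hαd
      by_cases hfull : ∀ B ∈ Slev k b w 0, B ∈ Nb g w 𝒜
      · have hY0 : Y 0 = s 0 := by
          show ((((Slev k b w 0).filter (· ∈ Nb g w 𝒜)).card : ℕ) : ℝ) = _
          rw [filter_true_of_mem hfull]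
        rw [hY0]
        have : α * (s 0 - ∑ d ∈ range (2 * n0), r d) ≤
            1 * (s 0 - ∑ d ∈ range (2 * n0), r d) :=
          mul_le_mul_of_nonneg_right hα1 (by linarith)
        linarith
      · push Not at hfull
        obtain ⟨B, hB, hBN⟩ := hfull
        rw [mem_Slev] at hB
        by_cases hα' : α = 0
        · rw [hα', zero_mul, add_zero]
          rcases 𝒜.eq_empty_or_nonempty with h0 | ⟨A, hA⟩
          · have : ∑ d ∈ range (2 * n0), X d = 0 := by
              refine sum_eq_zero fun d _ => ?_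
              show ((((Rlev k (Option (Fin W)) w d).filter (· ∈ 𝒜)).card : ℕ) : ℝ) = 0
              rw [h0]
              simp
            rw [this]; exact hY 0
          · obtain ⟨u, hu⟩ := exists_u w A (h𝒜 A hA) (by omega)
            have h1 := card_le_card (Cont_sub g w 𝒜 A hA u hu hZ0)
            have h2 : ((Cont (g u) w).card : ℝ) ≤ Y 0 := by
              show _ ≤ ((((Slev k b w 0).filter (· ∈ Nb g w 𝒜)).card : ℕ) : ℝ)
              exact_mod_cast h1
            linarith [hR3 u]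
        · have hloss := fun d => level_loss g w z L 𝒜 B hB.1 (card_eq_zero.1 hB.2) hBN
            (hZ B hB.1) hkz hL1 hL d
          have hLpos : (0 : ℝ) < (L : ℝ) ^ (z + 1) := by
            have : (0 : ℝ) < L := by exact_mod_cast hL1
            positivity
          have hL1' : (1 : ℝ) ≤ (L : ℝ) ^ (z + 1) := one_le_pow₀ (by exact_mod_cast hL1)
          have hlam : 0 ≤ 1 - 1 / (L : ℝ) ^ (z + 1) := by
            have : 1 / (L : ℝ) ^ (z + 1) ≤ 1 := by
              rw [div_le_one hLpos]; exact hL1'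
            linarith
          have hα2 : α ≤ 1 - 1 / (L : ℝ) ^ (z + 1) := by
            rw [hα]
            exact div_le_of_le_mul₀ (hr d) hlam (hloss d)
          have hXne : X d ≠ 0 := by
            intro h0
            apply hα'
            rw [hα, h0, zero_div]
          obtain ⟨A, hA⟩ : ((Rlev k (Option (Fin W)) w d).filter (· ∈ 𝒜)).Nonempty := by
            rw [nonempty_iff_ne_empty]
            intro h0
            apply hXne
            show ((((Rlev k (Option (Fin W)) w d).filter (· ∈ 𝒜)).card : ℕ) : ℝ) = 0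
            rw [h0]; simp
          rw [mem_filter, mem_Rlev] at hA
          have hgain := col_gain g n0 h w g0 hk hh hb hw 𝒜 A hA.2 ∅ (empty_subset _)
            (by rw [sdiff_empty]; omega)
          have e1 : ((CE b w (∅ : Finset (Fin k))).card : ℝ) = s 0 := by
            have := Slev_card (k := k) (b := b) w ∅
            rw [card_empty, Nat.choose_zero_right, one_mul] at this
            show _ = ((Slev k b w 0).card : ℝ)
            rw [this]
          have e2 : ((((CE b w (∅ : Finset (Fin k))).filter (· ∈ Nb g w 𝒜)).card : ℕ) : ℝ) =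
              Y 0 := by
            have := sum_levels (k := k) (b := b) w 0 (· ∈ Nb g w 𝒜)
            rw [powersetCard_zero, sum_singleton] at this
            show _ = ((((Slev k b w 0).filter (· ∈ Nb g w 𝒜)).card : ℕ) : ℝ)
            rw [this]
          rw [e1, e2] at hgain
          have h3 : 1 / (1 + 1 / (2 : ℝ) ^ (h * b)) ^ g0 ≤ 1 / (L : ℝ) ^ (z + 1) :=
            one_div_le_one_div_of_le hLpos hβ
          have hXl : ∑ d ∈ range (2 * n0), X d ≤
              (1 - 1 / (L : ℝ) ^ (z + 1)) * ∑ d ∈ range (2 * n0), r d := by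
            rw [mul_sum]
            exact sum_le_sum fun d _ => hloss d
          have hs0 : 0 ≤ s 0 := Nat.cast_nonneg _
          calc ∑ d ∈ range (2 * n0), X d + α * (s 0 - ∑ d ∈ range (2 * n0), r d)
              ≤ (1 - 1 / (L : ℝ) ^ (z + 1)) * ∑ d ∈ range (2 * n0), r d +
                (1 - 1 / (L : ℝ) ^ (z + 1)) * (s 0 - ∑ d ∈ range (2 * n0), r d) :=
                add_le_add hXl (mul_le_mul_of_nonneg_right hα2 (by linarith))
            _ = (1 - 1 / (L : ℝ) ^ (z + 1)) * s 0 := by ring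
            _ ≤ (1 - 1 / (1 + 1 / (2 : ℝ) ^ (h * b)) ^ g0) * s 0 := by
                apply mul_le_mul_of_nonneg_right _ hs0
                linarith
            _ ≤ Y 0 := hgain
  rw [← hkM] at hmain
  have : ((𝒜.card : ℕ) : ℝ) ≤ (((Nb g w 𝒜).card : ℕ) : ℝ) := by
    rw [hcard1, hcard2]; exact hmain
  exact_mod_cast this

end Pool.Agent.H470R3.Kn
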