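import Mathlib
import Pool.Agent.H470R3.KnE

set_option autoImplicit false

namespace Pool.Agent.H470R3.Kn

open Finset

/-- existence of the partner system -/
theorem exists_system (k b W a q s1 s2 κ r t : ℕ) (hkκ : s1 * κ = k) (hb : b = q * a)
    (ha : 0 < a) (hκ : 0 < κ) (hs : s1 = q * s2) (hq : 0 < q) (hr : 0 < r)
    (hW : W ≤ s1 ^ r * t) :
    ∃ g : Fin W → Finset (Fin k × Fin b), (∀ v, (g v).card ≤ r * (κ * b)) ∧
      (∀ B : Finset (Fin k × Fin b), B.card = k * a → (Zs g B).card ≤ ((q - 1) * s2) ^ r * t) ∧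
      (∀ B : Finset (Fin k × Fin b), Mis B = ∅ → Zs g B = ∅) := by
  classical
  let ε : Fin s1 × Fin κ ≃ Fin k := finProdFinEquiv.trans (finCongr hkκ)
  let cls : Fin k → Fin s1 := fun i => (ε.symm i).1
  obtain ⟨ι⟩ : Nonempty (Fin W ↪ (Fin r → Fin s1) × Fin t) := by
    apply Function.Embedding.nonempty_of_card_le
    simpa using hW
  let π : Fin W → (Fin r → Fin s1) := fun v => (ι v).1
  let fib : Fin s1 → Finset (Fin k × Fin b) := fun c => univ.filter (fun x => cls x.1 = c)
  have hfib : ∀ c, (fib c).card ≤ κ * b := by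
    intro c
    have hsub : fib c ⊆ (univ : Finset (Fin κ × Fin b)).image (fun y => (ε (c, y.1), y.2)) := by
      intro x hx
      rw [mem_filter] at hx
      rw [mem_image]
      refine ⟨((ε.symm x.1).2, x.2), mem_univ _, ?_⟩
      apply Prod.ext
      · show ε (c, (ε.symm x.1).2) = x.1
        rw [← hx.2]
        show ε ((ε.symm x.1).1, (ε.symm x.1).2) = x.1
        simp
      · rfl
    refine le_trans (card_le_card hsub) (le_trans card_image_le ?_)
    rw [card_univ, Fintype.card_prod, Fintype.card_fin, Fintype.card_fin]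
  let g : Fin W → Finset (Fin k × Fin b) := fun v => univ.filter (fun x => ∃ j, cls x.1 = π v j)
  refine ⟨g, ?_, ?_, ?_⟩
  · intro v
    have hsub : g v ⊆ (univ : Finset (Fin r)).biUnion (fun j => fib (π v j)) := by
      intro x hx
      rw [mem_filter] at hx
      obtain ⟨j, hj⟩ := hx.2
      rw [mem_biUnion]
      exact ⟨j, mem_univ _, mem_filter.2 ⟨mem_univ _, hj⟩⟩
    refine le_trans (card_le_card hsub) (le_trans card_biUnion_le ?_)
    refine le_trans (sum_le_sum fun j _ => hfib (π v j)) ?_
    rw [sum_const, card_univ, Fintype.card_fin, smul_eq_mul]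
  · intro B hB
    let Lb : Finset (Fin s1) := univ.filter (fun c => ∀ x ∈ B, cls x.1 ≠ c)
    have hLs : Lb.card ≤ s1 := by
      have := card_le_univ Lb
      rwa [Fintype.card_fin] at this
    have hBle : B.card ≤ (s1 - Lb.card) * (κ * b) := by
      have hsub : B ⊆ (univ \ Lb).biUnion fib := by
        intro x hx
        rw [mem_biUnion]
        refine ⟨cls x.1, ?_, mem_filter.2 ⟨mem_univ _, rfl⟩⟩
        rw [mem_sdiff]
        refine ⟨mem_univ _, ?_⟩
        intro h
        rw [mem_filter] at h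
        exact h.2 x hx rfl
      refine le_trans (card_le_card hsub) (le_trans card_biUnion_le ?_)
      refine le_trans (sum_le_sum fun j _ => hfib j) ?_
      rw [sum_const, card_sdiff_of_subset (subset_univ _), card_univ, Fintype.card_fin,
        smul_eq_mul]
    have hLb : Lb.card ≤ (q - 1) * s2 := by
      rw [hB, ← hkκ, hb] at hBle
      have h1 : (κ * a) * s1 ≤ (κ * a) * ((s1 - Lb.card) * q) := by
        calc (κ * a) * s1 = s1 * κ * a := by ring
          _ ≤ (s1 - Lb.card) * (κ * (q * a)) := hBle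
          _ = _ := by ring
      have h2 : s1 ≤ (s1 - Lb.card) * q := Nat.le_of_mul_le_mul_left h1 (Nat.mul_pos hκ ha)
      obtain ⟨p, rfl⟩ : ∃ p, q = p + 1 := ⟨q - 1, by omega⟩
      rw [Nat.add_sub_cancel]
      have h3 : s2 ≤ s1 - Lb.card := by
        refine Nat.le_of_mul_le_mul_left ?_ hq
        calc (p + 1) * s2 = s1 := hs.symm
          _ ≤ (s1 - Lb.card) * (p + 1) := h2
          _ = _ := by ring
      have h4 : s1 = p * s2 + s2 := by rw [hs]; ring
      omega
    have hZ : (Zs g B).card ≤ Lb.card ^ r * t := by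
      have h1 : (Zs g B).card ≤
          ((Fintype.piFinset (fun _ : Fin r => Lb)) ×ˢ (univ : Finset (Fin t))).card := by
        refine card_le_card_of_injOn ι ?_ (ι.injective.injOn)
        intro v hv
        rw [mem_coe, Zs, mem_filter] at hv
        rw [mem_coe, mem_product]
        refine ⟨?_, mem_univ _⟩
        rw [Fintype.mem_piFinset]
        intro j
        rw [mem_filter]
        refine ⟨mem_univ _, ?_⟩
        intro x hx hcx
        exact disjoint_left.1 hv.2 (mem_filter.2 ⟨mem_univ _, ⟨j, hcx⟩⟩) hx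
      rw [card_product, Fintype.card_piFinset_const, card_univ, Fintype.card_fin] at h1
      exact h1
    exact le_trans hZ (Nat.mul_le_mul_right _ (Nat.pow_le_pow_left hLb r))
  · intro B hB
    rw [eq_empty_iff_forall_notMem]
    intro v hv
    rw [Zs, mem_filter] at hv
    let i : Fin k := ε (π v ⟨0, hr⟩, ⟨0, hκ⟩)
    have hi : i ∉ Mis B := by rw [hB]; exact notMem_empty _
    obtain ⟨y, hy⟩ := not_mem_Mis.1 hi
    refine disjoint_left.1 hv.2 (mem_filter.2 ⟨mem_univ _, ⟨⟨0, hr⟩, ?_⟩⟩) hy
    show (ε.symm (ε (π v ⟨0, hr⟩, ⟨0, hκ⟩))).1 = _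
    rw [Equiv.symm_apply_apply]

end Pool.Agent.H470R3.Kn
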