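import Mathlib
import Pool.Agent.H470R3.KnA
import Pool.Agent.H470R3.KnD

set_option autoImplicit false

namespace Pool.Agent.H470R3.Kn

open Finset

lemma sum_choose_le (k n : ℕ) (h : ℝ) (hh : 1 ≤ h) (hn : n ≤ k + 1) :
    ∑ d ∈ range n, (k.choose d : ℝ) ≤ (1 + 1 / h) ^ k * h ^ n := by
  have hpos : 0 < h := by linarith
  have h1 : (1 + 1 / h) ^ k = ∑ d ∈ range (k + 1), (1 / h) ^ d * (k.choose d : ℝ) := by
    rw [add_comm, add_pow]
    refine sum_congr rfl fun d _ => ?_
    rw [one_pow, mul_one]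
  rw [h1, sum_mul]
  calc ∑ d ∈ range n, (k.choose d : ℝ)
      ≤ ∑ d ∈ range n, (1 / h) ^ d * (k.choose d : ℝ) * h ^ n := by
        refine sum_le_sum fun d hd => ?_
        have hd' := mem_range.1 hd
        have h2 : h ^ n = h ^ d * h ^ (n - d) := by rw [← pow_add]; congr 1; omega
        have h3 : 1 ≤ h ^ (n - d) := one_le_pow₀ hh
        have h4 : (1 / h) ^ d * h ^ d = 1 := by
          rw [← mul_pow, one_div_mul_cancel hpos.ne', one_pow]
        have h5 : (1 / h) ^ d * (k.choose d : ℝ) * h ^ n = (k.choose d : ℝ) * h ^ (n - d) := by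
          rw [h2]
          calc (1 / h) ^ d * (k.choose d : ℝ) * (h ^ d * h ^ (n - d))
              = ((1 / h) ^ d * h ^ d) * (k.choose d : ℝ) * h ^ (n - d) := by ring
            _ = _ := by rw [h4, one_mul]
        rw [h5]
        nlinarith [Nat.cast_nonneg (α := ℝ) (k.choose d)]
    _ ≤ ∑ d ∈ range (k + 1), (1 / h) ^ d * (k.choose d : ℝ) * h ^ n := by
        refine sum_le_sum_of_subset_of_nonneg ?_ ?_
        · intro x hx
          rw [mem_range] at hx ⊢
          omega
        · intro d _ _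
          positivity

lemma one_add_inv_pow_le (h : ℕ) (hh : 0 < h) : (1 + 1 / (h : ℝ)) ^ h ≤ 3 := by
  have hpos : (0 : ℝ) < h := by exact_mod_cast hh
  have h1 : 1 + 1 / (h : ℝ) ≤ Real.exp (1 / h) := by
    have := Real.add_one_le_exp (1 / (h : ℝ))
    linarith
  calc (1 + 1 / (h : ℝ)) ^ h ≤ (Real.exp (1 / h)) ^ h :=
        pow_le_pow_left₀ (by positivity) h1 h
    _ = Real.exp 1 := by
        rw [← Real.exp_nat_mul]
        congr 1
        field_simp
    _ ≤ 3 := by
        have := Real.exp_one_lt_d9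
        linarith

variable {k b W : ℕ}

/-- the small levels of rows are dominated by the columns containing a fixed small set -/
theorem small_levels (q a h n0 G : ℕ) (hq : 1 ≤ q) (hb : b = q * a) (hk : k = n0 * h)
    (hn0 : 0 < n0) (hm : k + (W + 1) = k * b) (h2 : 2 ≤ h) (ha : 2 * h ≤ a)
    (hρ : (((q : ℝ) - 1) / q) ^ (h - 2) * (3 * (h : ℝ) ^ 2) ≤ 1 / 4)
    (hG : (4 * q + 1) ^ G ≤ 2 ^ n0) (hGk : G ≤ k)
    (S : Finset (Fin k × Fin b)) (hS : S.card ≤ G) :
    ∑ d ∈ range (2 * n0), (Rlev k (Option (Fin W)) (k * a) d).card ≤ (Cont S (k * a)).card := by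
  classical
  have hkpos : 0 < k := by rw [hk]; exact Nat.mul_pos hn0 (by omega)
  have ha1 : 1 ≤ a := by omega
  have hbpos : 0 < b := by rw [hb]; exact Nat.mul_pos (by omega) (by omega)
  have h2n0k : 2 * n0 ≤ k := by rw [hk]; nlinarith
  have hka : k ≤ k * a := Nat.le_mul_of_pos_right _ (by omega)
  have hmq : k * b = q * (k * a) := by rw [hb]; ring
  set N : ℝ := ((k * b).choose (k * a) : ℝ) with hN
  have hN0 : 0 ≤ N := Nat.cast_nonneg _
  have hqR : (1 : ℝ) ≤ q := by exact_mod_cast hq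
  set ρ : ℝ := ((q : ℝ) - 1) / q with hρdef
  have hρ0 : 0 ≤ ρ := div_nonneg (by linarith) (by linarith)
  have hρ1 : ρ ≤ 1 := by
    rw [hρdef, div_le_one (by linarith)]
    linarith
  -- one level
  have hlevel : ∀ d ∈ range (2 * n0), ((Rlev k (Option (Fin W)) (k * a) d).card : ℝ) ≤
      (k.choose d : ℝ) * (ρ ^ (n0 * (h - 2)) * N) := by
    intro d hd
    have hd' := mem_range.1 hd
    have e1 := Rlev_card (k := k) (R := Option (Fin W)) (k * a) d (by omega)
    rw [Fintype.card_option, Fintype.card_fin] at e1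
    rw [e1, Nat.cast_mul]
    apply mul_le_mul_of_nonneg_left _ (Nat.cast_nonneg _)
    have e2 := choose_up_both_iter d (W + 1) (k * a - d)
    rw [show k * a - d + d = k * a by omega] at e2
    have e3 := choose_ratio_iter (q := q) hq (k - d) (W + 1 + d) (k * a) (by
      rw [← hmq]; omega)
    rw [show W + 1 + d + (k - d) = k * b by omega] at e3
    have e4 : ((W + 1 + d).choose (k * a) : ℝ) * (q : ℝ) ^ (k - d) ≤
        ((q : ℝ) - 1) ^ (k - d) * N := by
      have : (((W + 1 + d).choose (k * a) * q ^ (k - d) : ℕ) : ℝ) ≤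
          (((q - 1) ^ (k - d) * (k * b).choose (k * a) : ℕ) : ℝ) := by exact_mod_cast e3
      push_cast [Nat.cast_sub hq] at this
      exact this
    have hqpos : (0 : ℝ) < (q : ℝ) ^ (k - d) := by positivity
    have e5 : ((W + 1 + d).choose (k * a) : ℝ) ≤ ρ ^ (k - d) * N := by
      rw [hρdef, div_pow, div_mul_eq_mul_div, le_div_iff₀ hqpos]
      exact e4
    have e6 : ρ ^ (k - d) ≤ ρ ^ (n0 * (h - 2)) := by
      apply pow_le_pow_of_le_one hρ0 hρ1
      have : n0 * (h - 2) = k - 2 * n0 := by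
        rw [hk, Nat.mul_sub]; congr 1; ring
      omega
    calc ((W + 1).choose (k * a - d) : ℝ) ≤ ((W + 1 + d).choose (k * a) : ℝ) := by
          exact_mod_cast e2
      _ ≤ ρ ^ (k - d) * N := e5
      _ ≤ _ := mul_le_mul_of_nonneg_right e6 hN0
  -- the sum of the small levels
  have hhpos : (0 : ℝ) < h := by exact_mod_cast (by omega : 0 < h)
  have hsum : ∑ d ∈ range (2 * n0), ((Rlev k (Option (Fin W)) (k * a) d).card : ℝ) ≤
      (1 / 4) ^ n0 * N := by
    calc ∑ d ∈ range (2 * n0), ((Rlev k (Option (Fin W)) (k * a) d).card : ℝ)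
        ≤ ∑ d ∈ range (2 * n0), (k.choose d : ℝ) * (ρ ^ (n0 * (h - 2)) * N) :=
          sum_le_sum hlevel
      _ = (∑ d ∈ range (2 * n0), (k.choose d : ℝ)) * (ρ ^ (n0 * (h - 2)) * N) := by
          rw [sum_mul]
      _ ≤ ((1 + 1 / (h : ℝ)) ^ k * (h : ℝ) ^ (2 * n0)) * (ρ ^ (n0 * (h - 2)) * N) := by
          apply mul_le_mul_of_nonneg_right _ (by positivity)
          exact sum_choose_le k (2 * n0) h (by exact_mod_cast (by omega : 1 ≤ h)) (by omega)
      _ = ((1 + 1 / (h : ℝ)) ^ h * (h : ℝ) ^ 2 * ρ ^ (h - 2)) ^ n0 * N := by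
          have e1 : (1 + 1 / (h : ℝ)) ^ k = ((1 + 1 / (h : ℝ)) ^ h) ^ n0 := by
            rw [← pow_mul, hk, mul_comm]
          have e2 : (h : ℝ) ^ (2 * n0) = ((h : ℝ) ^ 2) ^ n0 := by rw [← pow_mul]
          have e3 : ρ ^ (n0 * (h - 2)) = (ρ ^ (h - 2)) ^ n0 := by rw [← pow_mul, mul_comm]
          rw [e1, e2, e3, mul_pow, mul_pow]
          ring
      _ ≤ (1 / 4) ^ n0 * N := by
          apply mul_le_mul_of_nonneg_right _ hN0
          apply pow_le_pow_left₀ (by positivity)
          have e4 := one_add_inv_pow_le h (by omega)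
          have e5 : 0 ≤ (h : ℝ) ^ 2 * ρ ^ (h - 2) := by positivity
          calc (1 + 1 / (h : ℝ)) ^ h * (h : ℝ) ^ 2 * ρ ^ (h - 2)
              = (1 + 1 / (h : ℝ)) ^ h * ((h : ℝ) ^ 2 * ρ ^ (h - 2)) := by ring
            _ ≤ 3 * ((h : ℝ) ^ 2 * ρ ^ (h - 2)) := mul_le_mul_of_nonneg_right e4 e5
            _ = ρ ^ (h - 2) * (3 * (h : ℝ) ^ 2) := by ring
            _ ≤ 1 / 4 := hρ
  -- the columns missing no block
  have haR : (0 : ℝ) < a := by exact_mod_cast (by omega : 0 < a)
  have hs0 : (1 / 2) ^ n0 * N ≤ ((Slev k b (k * a) 0).card : ℝ) := by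
    have e1 := total_le (k := k) (b := b) hbpos hkpos a ha1
    have e2 : N * ((a : ℝ) - 1) ^ k ≤ ((Slev k b (k * a) 0).card : ℝ) * (a : ℝ) ^ k := by
      have : (((k * b).choose (k * a) * (a - 1) ^ k : ℕ) : ℝ) ≤
          (((Slev k b (k * a) 0).card * a ^ k : ℕ) : ℝ) := by exact_mod_cast e1
      push_cast [Nat.cast_sub ha1] at this
      exact this
    have e3 : (1 / 2 : ℝ) ^ n0 ≤ (((a : ℝ) - 1) / a) ^ k := by
      have e4 : (1 / 2 : ℝ) ≤ (((a : ℝ) - 1) / a) ^ h := by
        have e5 := one_add_mul_le_pow (a := -(1 / (a : ℝ))) (by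
          have : 1 / (a : ℝ) ≤ 1 := by
            rw [div_le_one haR]; exact_mod_cast ha1
          linarith) h
        have e6 : 1 + -(1 / (a : ℝ)) = ((a : ℝ) - 1) / a := by
          field_simp
          ring
        rw [e6] at e5
        refine le_trans ?_ e5
        have e7 : (h : ℝ) * (1 / a) ≤ 1 / 2 := by
          rw [mul_one_div, div_le_div_iff₀ haR (by norm_num)]
          have : ((2 * h : ℕ) : ℝ) ≤ a := by exact_mod_cast ha
          push_cast at this
          linarith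
        have e8 : (h : ℝ) * -(1 / (a : ℝ)) = -((h : ℝ) * (1 / a)) := by ring
        rw [e8]
        linarith
      rw [hk, mul_comm, pow_mul]
      exact pow_le_pow_left₀ (by norm_num) e4 n0
    have hak : (0 : ℝ) < (a : ℝ) ^ k := by positivity
    calc (1 / 2 : ℝ) ^ n0 * N ≤ (((a : ℝ) - 1) / a) ^ k * N :=
          mul_le_mul_of_nonneg_right e3 hN0
      _ = N * ((a : ℝ) - 1) ^ k / (a : ℝ) ^ k := by rw [div_pow]; ring
      _ ≤ _ := by rw [div_le_iff₀ hak]; exact e2
  -- the columns containing S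
  have hcont : ((Slev k b (k * a) 0).card : ℝ) ≤ 2 ^ n0 * ((Cont S (k * a)).card : ℝ) := by
    have h4k : 4 * k ≤ k * a := by
      rw [mul_comm]; exact Nat.mul_le_mul_left _ (by omega)
    have e1 := Cont_bound (k := k) hbpos (w := k * a) (4 * q) G (by
      rw [hmq, mul_comm 4 q, mul_assoc]
      apply Nat.mul_le_mul_left
      omega) (by omega) S hS
    have e2 : (4 * q + 1) ^ S.card ≤ 2 ^ n0 :=
      le_trans (Nat.pow_le_pow_right (by omega) hS) hG
    have e3 := le_trans e1 (Nat.mul_le_mul_right _ e2)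
    exact_mod_cast e3
  have hfin : ∑ d ∈ range (2 * n0), ((Rlev k (Option (Fin W)) (k * a) d).card : ℝ) ≤
      ((Cont S (k * a)).card : ℝ) := by
    have e1 : (1 / 4 : ℝ) ^ n0 = (1 / 2) ^ n0 * (1 / 2) ^ n0 := by
      rw [← mul_pow]; norm_num
    have e2 : (1 / 2 : ℝ) ^ n0 * 2 ^ n0 = 1 := by
      rw [← mul_pow]; norm_num
    calc ∑ d ∈ range (2 * n0), ((Rlev k (Option (Fin W)) (k * a) d).card : ℝ)
        ≤ (1 / 4) ^ n0 * N := hsum
      _ = (1 / 2) ^ n0 * ((1 / 2) ^ n0 * N) := by rw [e1]; ring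
      _ ≤ (1 / 2) ^ n0 * ((Slev k b (k * a) 0).card : ℝ) :=
          mul_le_mul_of_nonneg_left hs0 (by positivity)
      _ ≤ (1 / 2) ^ n0 * (2 ^ n0 * ((Cont S (k * a)).card : ℝ)) :=
          mul_le_mul_of_nonneg_left hcont (by positivity)
      _ = ((1 / 2 : ℝ) ^ n0 * 2 ^ n0) * ((Cont S (k * a)).card : ℝ) := by ring
      _ = _ := by rw [e2, one_mul]
  exact_mod_cast hfin

/-- the large levels of columns are dominated by shifted levels of rows -/
theorem large_levels (q a h n0 : ℕ) (hq : 4 ≤ q) (hb : b = q * a) (hk : k = n0 * h)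
    (hn0 : 0 < n0) (hh : 0 < h) (hm : k + (W + 1) = k * b) (ha : (4 * q) ^ h ≤ a - 1)
    (e : ℕ) (he : n0 < e) (hek : e + n0 ≤ k) :
    (Slev k b (k * a) e).card ≤ (Rlev k (Option (Fin W)) (k * a) (e + n0)).card := by
  classical
  have hkpos : 0 < k := by rw [hk]; exact Nat.mul_pos hn0 hh
  have h4 : 4 * q ≤ (4 * q) ^ h := Nat.le_self_pow (by omega) _
  have ha5 : 5 ≤ a := by omega
  have hbpos : 0 < b := by rw [hb]; exact Nat.mul_pos (by omega) (by omega)
  have hmq : k * b = q * (k * a) := by rw [hb]; ring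
  set w := k * a with hw
  set d := e + n0 with hd
  have hwk : 5 * k ≤ w := by rw [hw, mul_comm]; exact Nat.mul_le_mul_left _ ha5
  have h1 := Slev_bound (k := k) (b := b) hbpos hkpos a e
  rw [← hw] at h1
  have h2 : (Slev k b w 0).card ≤ (k * b).choose w := by
    rw [← sum_Slev]
    exact single_le_sum (f := fun e => (Slev k b w e).card) (fun _ _ => Nat.zero_le _)
      (mem_range.2 (Nat.succ_pos k))
  have h3 : (Slev k b w e).card * (a - 1) ^ e ≤ 2 ^ k * (k * b).choose w :=
    le_trans h1 (Nat.mul_le_mul (Nat.choose_le_two_pow k e) h2)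
  have h4w : 4 * w ≤ k * b := by rw [hmq]; exact Nat.mul_le_mul_right _ hq
  have h5 := choose_down_both_iter (2 * q) d (k * b - d) (w - d) (by
    rw [Nat.sub_add_cancel (by omega), hmq]
    calc q * w ≤ q * (2 * (w - d + 1)) := Nat.mul_le_mul_left _ (by omega)
      _ = _ := by ring)
  rw [Nat.sub_add_cancel (by omega), Nat.sub_add_cancel (by omega)] at h5
  have h6 := choose_down_left_iter (k - d) (W + 1) (w - d) (by omega)
  rw [show W + 1 + (k - d) = k * b - d by omega] at h6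
  have h7 : (k * b).choose w ≤ (2 * q) ^ k * (W + 1).choose (w - d) := by
    calc (k * b).choose w ≤ (2 * q) ^ d * (k * b - d).choose (w - d) := h5
      _ ≤ (2 * q) ^ d * (2 ^ (k - d) * (W + 1).choose (w - d)) := Nat.mul_le_mul_left _ h6
      _ ≤ (2 * q) ^ d * ((2 * q) ^ (k - d) * (W + 1).choose (w - d)) := by
          apply Nat.mul_le_mul_left
          apply Nat.mul_le_mul_right
          exact Nat.pow_le_pow_left (by omega) _
      _ = ((2 * q) ^ d * (2 * q) ^ (k - d)) * (W + 1).choose (w - d) := by ring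
      _ = _ := by rw [← pow_add]; congr 2; omega
  have h8 : (Slev k b w e).card * (4 * q) ^ k ≤ (W + 1).choose (w - d) * (4 * q) ^ k := by
    calc (Slev k b w e).card * (4 * q) ^ k
        = (Slev k b w e).card * ((4 * q) ^ h) ^ n0 := by rw [← pow_mul, hk, mul_comm h n0]
      _ ≤ (Slev k b w e).card * (a - 1) ^ n0 :=
          Nat.mul_le_mul_left _ (Nat.pow_le_pow_left ha _)
      _ ≤ (Slev k b w e).card * (a - 1) ^ e :=
          Nat.mul_le_mul_left _ (Nat.pow_le_pow_right (by omega) (by omega))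
      _ ≤ 2 ^ k * (k * b).choose w := h3
      _ ≤ 2 ^ k * ((2 * q) ^ k * (W + 1).choose (w - d)) := Nat.mul_le_mul_left _ h7
      _ = (W + 1).choose (w - d) * (2 * (2 * q)) ^ k := by rw [mul_pow 2 (2 * q) k]; ring
      _ = _ := by congr 2; ring
  have h9 : (Slev k b w e).card ≤ (W + 1).choose (w - d) :=
    Nat.le_of_mul_le_mul_right h8 (by positivity)
  have e1 := Rlev_card (k := k) (R := Option (Fin W)) w d (by omega)
  rw [Fintype.card_option, Fintype.card_fin] at e1
  rw [e1]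
  exact le_trans h9 (Nat.le_mul_of_pos_left _ (Nat.choose_pos hek))

end Pool.Agent.H470R3.Kn
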