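import Mathlib
import Pool.Agent.H470R3.KnF
import Pool.Agent.H470R3.KnG
import Pool.Agent.H470R3.KnH

set_option autoImplicit false

namespace Pool.Agent.H470R3.Kn

open Finset

lemma sum_Rlev (k : ℕ) (R : Type) [Fintype R] [DecidableEq R] (w : ℕ) :
    ∑ d ∈ range (k + 1), (Rlev k R w d).card = (k + Fintype.card R).choose w := by
  have h : (powersetCard w (univ : Finset (Fin k ⊕ R))).card =
      ∑ d ∈ range (k + 1), (Rlev k R w d).card := by
    refine card_eq_sum_card_fiberwise (f := fun A : Finset (Fin k ⊕ R) => A.toLeft.card)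
      (t := range (k + 1)) ?_
    intro A _
    rw [mem_coe, mem_range]
    have := card_le_univ A.toLeft
    rw [Fintype.card_fin] at this
    show A.toLeft.card < k + 1
    omega
  rw [← h, card_powersetCard, card_univ, Fintype.card_sum, Fintype.card_fin]

theorem perm_of_hall {k b W w m : ℕ} (g : Fin W → Finset (Fin k × Fin b))
    (hm : k + (W + 1) = m) (hm2 : k * b = m)
    (hall : ∀ 𝒜 : Finset (Finset (Fin k ⊕ Option (Fin W))), (∀ A ∈ 𝒜, A.card = w) →
      𝒜.card ≤ (Nb g w 𝒜).card) :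
    ∃ σ : Equiv.Perm {s : Finset (Fin m) // s.card = w},
      ∀ s t, Disjoint s.1 t.1 → ¬ Disjoint (σ s).1 (σ t).1 := by
  classical
  let t : {A : Finset (Fin k ⊕ Option (Fin W)) // A.card = w} → Finset (Finset (Fin k × Fin b)) :=
    fun A => (powersetCard w univ).filter (fun B => Rel g A.1 B)
  have h1 : ∀ S : Finset {A : Finset (Fin k ⊕ Option (Fin W)) // A.card = w},
      S.card ≤ (S.biUnion t).card := by
    intro S
    have e1 : (S.map (Function.Embedding.subtype _)).card = S.card := card_map _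
    have e2 := hall (S.map (Function.Embedding.subtype _)) (by
      intro A hA
      rw [mem_map] at hA
      obtain ⟨A', _, rfl⟩ := hA
      exact A'.2)
    rw [e1] at e2
    refine le_trans e2 (card_le_card ?_)
    intro B hB
    rw [mem_Nb] at hB
    obtain ⟨hBw, A, hA, hr⟩ := hB
    rw [mem_map] at hA
    obtain ⟨A', hA', rfl⟩ := hA
    rw [mem_biUnion]
    exact ⟨A', hA', mem_filter.2 ⟨mem_powersetCard.2 ⟨subset_univ _, hBw⟩, hr⟩⟩
  obtain ⟨f, hfinj, hf⟩ := (all_card_le_biUnion_card_iff_exists_injective t).1 h1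
  have hf1 : ∀ A, (f A).card = w := fun A =>
    (mem_powersetCard.1 (mem_filter.1 (hf A)).1).2
  have hf2 : ∀ A, Rel g A.1 (f A) := fun A => (mem_filter.1 (hf A)).2
  let φ : Fin m ≃ Fin k ⊕ Option (Fin W) := Fintype.equivOfCardEq (by
    rw [Fintype.card_sum, Fintype.card_option, Fintype.card_fin, Fintype.card_fin,
      Fintype.card_fin, hm])
  let ψ : Fin m ≃ Fin k × Fin b := Fintype.equivOfCardEq (by
    rw [Fintype.card_prod, Fintype.card_fin, Fintype.card_fin, Fintype.card_fin, hm2])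
  let up : {s : Finset (Fin m) // s.card = w} →
      {A : Finset (Fin k ⊕ Option (Fin W)) // A.card = w} :=
    fun s => ⟨s.1.map φ.toEmbedding, by rw [card_map]; exact s.2⟩
  let F : {s : Finset (Fin m) // s.card = w} → {s : Finset (Fin m) // s.card = w} := fun s =>
    ⟨(f (up s)).map ψ.symm.toEmbedding, by rw [card_map]; exact hf1 _⟩
  have hFinj : Function.Injective F := by
    intro s s' h
    have h1 : (f (up s)).map ψ.symm.toEmbedding = (f (up s')).map ψ.symm.toEmbedding :=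
      congrArg Subtype.val h
    have h2 := map_injective _ h1
    have h3 := hfinj h2
    have h4 : s.1.map φ.toEmbedding = s'.1.map φ.toEmbedding := congrArg Subtype.val h3
    exact Subtype.ext (map_injective _ h4)
  refine ⟨Equiv.ofBijective F (Finite.injective_iff_bijective.1 hFinj), ?_⟩
  intro s s' hd hd2
  refine Rel_intersecting g (hf2 (up s)) (hf2 (up s')) ?_ ?_
  · exact (disjoint_map _).2 hd
  · have h3 : Disjoint ((f (up s)).map ψ.symm.toEmbedding) ((f (up s')).map ψ.symm.toEmbedding) :=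
      hd2
    exact (disjoint_map _).1 h3

lemma exists_h (q : ℕ) (hq : 4 ≤ q) : ∃ h : ℕ, 4 * q ≤ h ∧
    (((q : ℝ) - 1) / q) ^ (h - 2) * (3 * (h : ℝ) ^ 2) ≤ 1 / 4 := by
  have hqR : (4 : ℝ) ≤ q := by exact_mod_cast hq
  set ρ : ℝ := ((q : ℝ) - 1) / q with hρ
  have hρ0 : 0 < ρ := div_pos (by linarith) (by linarith)
  have hρ1 : ρ < 1 := by
    rw [hρ, div_lt_one (by linarith)]
    linarith
  have h1 := tendsto_pow_const_mul_const_pow_of_abs_lt_one 2 (r := ρ) (by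
    rw [abs_of_pos hρ0]; exact hρ1)
  have h2 : ∀ᶠ n : ℕ in Filter.atTop, (n : ℝ) ^ 2 * ρ ^ n < ρ ^ 2 / 12 :=
    h1.eventually_lt_const (by positivity)
  obtain ⟨N0, hN0⟩ := Filter.eventually_atTop.1 h2
  refine ⟨max N0 (4 * q), le_max_right _ _, ?_⟩
  set h := max N0 (4 * q) with hh
  have h3 := hN0 h (le_max_left _ _)
  have h4 : 2 ≤ h := le_trans (by omega) (le_max_right N0 (4 * q))
  have h5 : ρ ^ h = ρ ^ (h - 2) * ρ ^ 2 := by rw [← pow_add]; congr 1; omega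
  rw [h5] at h3
  have h6 : 0 < ρ ^ 2 := by positivity
  have h7 : (h : ℝ) ^ 2 * ρ ^ (h - 2) < 1 / 12 := by
    refine lt_of_mul_lt_mul_right ?_ h6.le
    calc (h : ℝ) ^ 2 * ρ ^ (h - 2) * ρ ^ 2 = (h : ℝ) ^ 2 * (ρ ^ (h - 2) * ρ ^ 2) := by ring
      _ < ρ ^ 2 / 12 := h3
      _ = 1 / 12 * ρ ^ 2 := by ring
  calc ρ ^ (h - 2) * (3 * (h : ℝ) ^ 2) = 3 * ((h : ℝ) ^ 2 * ρ ^ (h - 2)) := by ring
    _ ≤ 1 / 4 := by linarith

lemma exists_r (q C : ℕ) (hq : 4 ≤ q) (hC : 1 ≤ C) : ∃ r : ℕ, 1 ≤ r ∧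
    (q - 1) ^ r * C ≤ q ^ r := by
  have hqR : (4 : ℝ) ≤ q := by exact_mod_cast hq
  have hCR : (1 : ℝ) ≤ C := by exact_mod_cast hC
  obtain ⟨n, hn⟩ := exists_pow_lt_of_lt_one (x := 1 / (C : ℝ)) (y := ((q : ℝ) - 1) / q)
    (by positivity) (by rw [div_lt_one (by linarith)]; linarith)
  have h1 : (((q : ℝ) - 1) / q) ^ n * C ≤ 1 := by
    have : (((q : ℝ) - 1) / q) ^ n * C ≤ 1 / (C : ℝ) * C :=
      mul_le_mul_of_nonneg_right hn.le (by linarith)
    rwa [one_div_mul_cancel (by linarith)] at this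
  have h2 : ((q : ℝ) - 1) ^ n * C ≤ (q : ℝ) ^ n := by
    have hqn : (0 : ℝ) < (q : ℝ) ^ n := by positivity
    rw [div_pow, div_mul_eq_mul_div, div_le_one hqn] at h1
    exact h1
  have h3 : (q - 1) ^ n * C ≤ q ^ n := by
    have : (((q - 1) ^ n * C : ℕ) : ℝ) ≤ ((q ^ n : ℕ) : ℝ) := by
      push_cast [Nat.cast_sub (by omega : 1 ≤ q)]
      exact h2
    exact_mod_cast this
  refine ⟨n + 1, by omega, ?_⟩
  calc (q - 1) ^ (n + 1) * C = ((q - 1) ^ n * C) * (q - 1) := by ring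
    _ ≤ q ^ n * q := Nat.mul_le_mul h3 (Nat.sub_le _ _)
    _ = _ := by ring

theorem main_packing (q : ℕ) (hq : 4 ≤ q) : ∃ m w : ℕ, 1 ≤ w ∧ w < m ∧ m = q * w ∧
    ∃ σ : Equiv.Perm {s : Finset (Fin m) // s.card = w},
      ∀ s t, Disjoint s.1 t.1 → ¬ Disjoint (σ s).1 (σ t).1 := by
  obtain ⟨h, hh4, hρ⟩ := exists_h q hq
  obtain ⟨a, ha⟩ : ∃ a, a = (4 * q) ^ h + 1 + 2 * h := ⟨_, rfl⟩
  obtain ⟨b, hb⟩ : ∃ b, b = q * a := ⟨_, rfl⟩
  have hK : (0 : ℝ) < 1 / (2 : ℝ) ^ (h * b) := by positivity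
  obtain ⟨T', hT'⟩ := pow_unbounded_of_one_lt (4 * (q : ℝ)) (y := 1 + 1 / (2 : ℝ) ^ (h * b))
    (by linarith)
  obtain ⟨Λ, hΛ⟩ : ∃ Λ, Λ = T' + 3 := ⟨_, rfl⟩
  obtain ⟨C0, hC0⟩ : ∃ C0, C0 = 2 * q * h * b := ⟨_, rfl⟩
  have hhpos : 0 < h := by omega
  have hapos : 0 < a := by omega
  have hbpos : 0 < b := by rw [hb]; exact Nat.mul_pos (by omega) hapos
  have hC0pos : 0 < C0 := by rw [hC0]; positivity
  have hΛpos : 0 < Λ := by omega
  obtain ⟨r, hr1, hr⟩ := exists_r q (C0 * (2 * Λ)) hq (by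
    have : 0 < C0 * (2 * Λ) := by positivity
    omega)
  obtain ⟨s2, hs2⟩ : ∃ s2, s2 = r * C0 * Λ := ⟨_, rfl⟩
  obtain ⟨s1, hs1⟩ : ∃ s1, s1 = q * s2 := ⟨_, rfl⟩
  have hs2pos : 0 < s2 := by rw [hs2]; positivity
  have hs1pos : 0 < s1 := by rw [hs1]; exact Nat.mul_pos (by omega) hs2pos
  obtain ⟨P, hP⟩ : ∃ P, P = s1 ^ r := ⟨_, rfl⟩
  have hPpos : 0 < P := by rw [hP]; positivity
  obtain ⟨G, hG⟩ : ∃ G, G = 2 * P := ⟨_, rfl⟩
  obtain ⟨g0, hg0⟩ : ∃ g0, g0 = Λ * G := ⟨_, rfl⟩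
  obtain ⟨n0, hn0⟩ : ∃ n0, n0 = 2 * q * g0 := ⟨_, rfl⟩
  obtain ⟨k, hk⟩ : ∃ k, k = n0 * h := ⟨_, rfl⟩
  obtain ⟨κ, hκ⟩ : ∃ κ, κ = 4 * q * Λ * h * s1 ^ (r - 1) := ⟨_, rfl⟩
  obtain ⟨t, ht⟩ : ∃ t, t = 2 * Λ * C0 := ⟨_, rfl⟩
  have hGpos : 0 < G := by omega
  have hg0pos : 0 < g0 := by rw [hg0]; exact Nat.mul_pos hΛpos hGpos
  have hn0pos : 0 < n0 := by rw [hn0]; exact Nat.mul_pos (by omega) hg0pos
  have hkpos : 0 < k := by rw [hk]; exact Nat.mul_pos hn0pos hhpos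
  have hκpos : 0 < κ := by
    rw [hκ]
    have : 0 < q := by omega
    positivity
  have hs1r : s1 ^ (r - 1) * s1 = P := by
    rw [← pow_succ, hP]; congr 1; omega
  have hkκ : s1 * κ = k := by
    calc s1 * κ = 4 * q * Λ * h * (s1 ^ (r - 1) * s1) := by rw [hκ]; ring
      _ = k := by rw [hs1r, hk, hn0, hg0, hG]; ring
  have hkb : P * t = k * b := by
    rw [ht, hC0, hk, hn0, hg0, hG]; ring
  have ha12 : 12 ≤ a := by
    have : 4 * q ≤ (4 * q) ^ h := Nat.le_self_pow (by omega) _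
    omega
  have hb3 : 3 ≤ b := by
    rw [hb]
    exact le_trans (by omega : 3 ≤ 1 * a) (Nat.mul_le_mul_right _ (by omega))
  have hkb3 : 3 * k ≤ k * b := by rw [mul_comm 3 k]; exact Nat.mul_le_mul_left _ hb3
  obtain ⟨W, hW⟩ : ∃ W, k + (W + 1) = k * b := ⟨k * b - k - 1, by omega⟩
  have hmq : k * b = q * (k * a) := by rw [hb]; ring
  have hGk : G ≤ k := by
    rw [hk, hn0, hg0]
    calc G = 1 * (1 * G) * 1 := by ring
      _ ≤ 2 * q * (Λ * G) * h :=
        Nat.mul_le_mul (Nat.mul_le_mul (by omega) (Nat.mul_le_mul_right _ hΛpos)) hhpos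
  -- the partner system
  obtain ⟨g, hg1, hg2, hg3⟩ := exists_system k b W a q s1 s2 κ r t hkκ hb hapos hκpos hs1
    (by omega) (by omega) (by rw [← hP, hkb]; omega)
  have hgG : ∀ v, (g v).card ≤ G := by
    intro v
    refine le_trans (hg1 v) ?_
    calc r * (κ * b) = 2 * ((r * C0 * Λ) * s1 ^ (r - 1)) := by rw [hκ, hC0]; ring
      _ = 2 * (s1 ^ (r - 1) * s2) := by rw [← hs2]; ring
      _ ≤ 2 * (s1 ^ (r - 1) * s1) := by
          apply Nat.mul_le_mul_left
          apply Nat.mul_le_mul_left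
          rw [hs1]
          exact Nat.le_mul_of_pos_left _ (by omega)
      _ = G := by rw [hs1r, hG]
  have hZ : ∀ B : Finset (Fin k × Fin b), B.card = k * a → (Zs g B).card ≤ P := by
    intro B hB
    refine le_trans (hg2 B hB) ?_
    calc ((q - 1) * s2) ^ r * t = ((q - 1) ^ r * (C0 * (2 * Λ))) * s2 ^ r := by
          rw [mul_pow, ht]; ring
      _ ≤ q ^ r * s2 ^ r := Nat.mul_le_mul_right _ hr
      _ = P := by rw [← mul_pow, ← hs1, hP]
  have hw3 : 12 * k ≤ k * a := by rw [mul_comm 12 k]; exact Nat.mul_le_mul_left _ ha12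
  have h2n0 : 2 * n0 ≤ k := by
    rw [hk, mul_comm]; exact Nat.mul_le_mul_left _ (by omega)
  have hG2 : (4 * q + 1) ^ G ≤ 2 ^ n0 := by
    have e1 : 4 * q + 1 ≤ 2 ^ (2 * q * Λ) := by
      have e2 : 2 * q * Λ < 2 ^ (2 * q * Λ) := Nat.lt_two_pow_self
      have e3 : 2 * q * 3 ≤ 2 * q * Λ := Nat.mul_le_mul_left _ (by omega)
      omega
    calc (4 * q + 1) ^ G ≤ (2 ^ (2 * q * Λ)) ^ G := Nat.pow_le_pow_left e1 _
      _ = 2 ^ n0 := by rw [← pow_mul, hn0, hg0]; congr 1; ring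
  have hall := hall_ineq g n0 h (k * a) g0 P (4 * q) (k - 2 * n0) hk (by omega) hhpos hbpos
    (by
      have e2 : 4 * q * a ≤ h * a := Nat.mul_le_mul_right _ hh4
      have e3 : h * 12 ≤ h * a := Nat.mul_le_mul_left _ ha12
      have e1 : 2 * q * a + 2 * h ≤ h * a := by
        linarith [Nat.zero_le (h * a)]
      calc g0 * (h * b) + n0 * (b + h) = g0 * q * (h * a + (2 * q * a + 2 * h)) := by
            rw [hn0, hb]; ring
        _ ≤ g0 * q * (h * a + h * a) := Nat.mul_le_mul_left _ (by omega)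
        _ = k * a := by rw [hk, hn0]; ring)
    hZ (fun B _ hB => hg3 B hB) (by omega) (by omega)
    (by
      calc W + 1 ≤ k * b := by omega
        _ = q * (k * a) := hmq
        _ ≤ q * (4 * (k * a - k - P)) := Nat.mul_le_mul_left _ (by omega)
        _ = _ := by ring)
    (by
      have e1 : (4 * (q : ℝ)) ≤ (1 + 1 / (2 : ℝ) ^ (h * b)) ^ Λ := by
        refine le_trans hT'.le ?_
        exact pow_le_pow_right₀ (by linarith) (by omega)
      push_cast
      calc (4 * (q : ℝ)) ^ (P + 1) ≤ ((1 + 1 / (2 : ℝ) ^ (h * b)) ^ Λ) ^ (P + 1) :=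
            pow_le_pow_left₀ (by positivity) e1 _
        _ = (1 + 1 / (2 : ℝ) ^ (h * b)) ^ (Λ * (P + 1)) := by rw [← pow_mul]
        _ ≤ (1 + 1 / (2 : ℝ) ^ (h * b)) ^ g0 := by
            apply pow_le_pow_right₀ (by linarith)
            rw [hg0]
            exact Nat.mul_le_mul_left _ (by omega))
    (by
      rw [sum_Rlev, sum_Slev, Fintype.card_option, Fintype.card_fin, hW])
    (fun u => small_levels q a h n0 G (by omega) hb hk hn0pos hW (by omega) (by omega) hρ hG2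
      hGk (g u) (hgG u))
    (fun e he hek => large_levels q a h n0 hq hb hk hn0pos hhpos hW (by omega) e he hek)
    (by
      intro e he hek
      apply Slev_eq_empty
      have e1 : k - e + 1 ≤ n0 := by omega
      calc (k - e) * b < (k - e + 1) * b := by
            rw [add_mul, one_mul]; omega
        _ ≤ n0 * b := Nat.mul_le_mul_right _ e1
        _ = n0 * q * a := by rw [hb]; ring
        _ ≤ n0 * h * a := by
            apply Nat.mul_le_mul_right
            apply Nat.mul_le_mul_left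
            omega
        _ = k * a := by rw [hk])
    (by omega)
  obtain ⟨σ, hσ⟩ := perm_of_hall (w := k * a) (m := k * b) g hW rfl hall
  have hwpos : 1 ≤ k * a := Nat.mul_pos hkpos hapos
  refine ⟨k * b, k * a, hwpos, ?_, hmq, σ, hσ⟩
  rw [hmq]
  calc k * a = 1 * (k * a) := by ring
    _ < q * (k * a) := Nat.mul_lt_mul_of_pos_right (by omega) hwpos

end Pool.Agent.H470R3.Kn
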