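import Mathlib

set_option autoImplicit false

namespace Pool.Agent.H470R3.WI

open Finset

/-- The family `a`, restricted to the index set `I`, satisfies no nontrivial relation
`sum e_i a_i = 0` with integer coefficients `|e_i| <= B` (finitely many nonzero). -/
def Indep {ι : Type} (B : ℤ) (a : ι → ℕ) (I : Set ι) : Prop :=
  ∀ s : Finset ι, (∀ i ∈ s, i ∈ I) → ∀ ε : ι → ℤ, (∀ i ∈ s, |ε i| ≤ B) →
    ∑ i ∈ s, ε i * (a i : ℤ) = 0 → ∀ i ∈ s, ε i = 0

/-- weakly independent family -/
def Weak {ι : Type} (a : ι → ℕ) : Prop := Indep 1 a Set.univ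

/-- the index set can be split into `k` classes, each giving a strongly independent subfamily -/
def Splits {ι : Type} (a : ι → ℕ) (k : ℕ) : Prop :=
  ∃ c : ι → Fin k, ∀ j : Fin k, Indep 2 a {i | c i = j}

theorem indep_comp {ι κ : Type} (B : ℤ) (f : ι → κ) (hf : Function.Injective f) (a : κ → ℕ)
    (I : Set κ) (h : Indep B a I) : Indep B (a ∘ f) (f ⁻¹' I) := by
  intro s hs ε hε hsum i hi
  have key := h (s.map ⟨f, hf⟩) (by
    intro y hy
    obtain ⟨x, hx, rfl⟩ := Finset.mem_map.1 hy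
    exact hs x hx) (Function.extend f ε 0) (by
    intro y hy
    obtain ⟨x, hx, rfl⟩ := Finset.mem_map.1 hy
    simp only [Function.Embedding.coeFn_mk]
    rw [hf.extend_apply]
    exact hε x hx) (by
    rw [Finset.sum_map]
    simp only [Function.Embedding.coeFn_mk]
    rw [← hsum]
    refine Finset.sum_congr rfl fun x _ => ?_
    rw [hf.extend_apply]
    rfl) (f i) (Finset.mem_map.2 ⟨i, hi, rfl⟩)
  rw [hf.extend_apply] at key
  exact key

theorem indep_scale {ι : Type} (B : ℤ) (l : ℕ) (a : ι → ℕ) (I : Set ι)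
    (h : Indep B (fun i => l * a i) I) : Indep B a I := by
  intro s hs ε hε hsum
  refine h s hs ε hε ?_
  have : ∑ i ∈ s, ε i * ((l * a i : ℕ) : ℤ) = (l : ℤ) * ∑ i ∈ s, ε i * (a i : ℤ) := by
    rw [Finset.mul_sum]
    refine Finset.sum_congr rfl fun i _ => ?_
    push_cast
    ring
  rw [this, hsum, mul_zero]

/-- the total weight of the first blocks -/
def T (B : ℕ → ℕ) : ℕ → ℕ
  | 0 => 0
  | k + 1 => T B k + (1 + T B k) * B k

theorem abs_le_T (B : ℕ → ℕ) (x : ℕ → ℤ) (hx : ∀ k, |x k| ≤ B k) (K : ℕ) :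
    |∑ k ∈ range K, (1 + (T B k : ℤ)) * x k| ≤ T B K := by
  induction K with
  | zero => simp [T]
  | succ K ih =>
    rw [Finset.sum_range_succ]
    refine (abs_add_le _ _).trans ?_
    have h1 : |(1 + (T B K : ℤ)) * x K| ≤ (1 + (T B K : ℤ)) * B K := by
      rw [abs_mul, abs_of_nonneg (by positivity)]
      exact mul_le_mul_of_nonneg_left (hx K) (by positivity)
    have h2 : (T B (K + 1) : ℤ) = T B K + (1 + (T B K : ℤ)) * B K := by
      simp [T]
    linarith

theorem tower (B : ℕ → ℕ) (x : ℕ → ℤ) (hx : ∀ k, |x k| ≤ B k) (K : ℕ)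
    (h : ∑ k ∈ range K, (1 + (T B k : ℤ)) * x k = 0) : ∀ k, k < K → x k = 0 := by
  induction K with
  | zero => intro k hk; omega
  | succ K ih =>
    rw [Finset.sum_range_succ] at h
    have h0 : x K = 0 := by
      by_contra hne
      have h1 : 1 ≤ |x K| := Int.one_le_abs hne
      have h2 := abs_le_T B x hx K
      have h3 : |(1 + (T B K : ℤ)) * x K| = |∑ k ∈ range K, (1 + (T B k : ℤ)) * x k| := by
        have : (1 + (T B K : ℤ)) * x K = - ∑ k ∈ range K, (1 + (T B k : ℤ)) * x k := by linarith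
        rw [this, abs_neg]
      rw [abs_mul, abs_of_nonneg (by positivity : (0 : ℤ) ≤ 1 + (T B K : ℤ))] at h3
      nlinarith
    rw [h0, mul_zero, add_zero] at h
    intro k hk
    rcases Nat.lt_succ_iff_lt_or_eq.1 hk with h' | h'
    · exact ih h k h'
    · rw [h']; exact h0

theorem glue (n : ℕ → ℕ) (hn : ∀ k, 0 < n k) (b : ∀ k, Fin (n k) → ℕ)
    (hpos : ∀ k i, 0 < b k i) (hw : ∀ k, Weak (b k)) :
    ∃ A : ℕ → ℕ, (∀ t, 0 < A t) ∧ Weak A ∧ ∀ k m, Splits A m → Splits (b k) m := by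
  classical
  set B : ℕ → ℕ := fun k => ∑ i, b k i with hB
  set F : (Σ k, Fin (n k)) → ℕ := fun p => (1 + T B p.1) * b p.1 p.2 with hF
  have hFw : Weak F := by
    intro s _ ε hε hsum
    obtain ⟨K, hK⟩ : ∃ K : ℕ, ∀ p ∈ s, p.1 < K := by
      refine ⟨s.sup (fun p => p.1) + 1, fun p hp => ?_⟩
      exact Nat.lt_succ_of_le (Finset.le_sup (f := fun p : (Σ k, Fin (n k)) => p.1) hp)
    set x : ℕ → ℤ := fun k => ∑ i : Fin (n k),
      (if (⟨k, i⟩ : Σ k, Fin (n k)) ∈ s then ε ⟨k, i⟩ else 0) * (b k i : ℤ) with hx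
    have hxB : ∀ k, |x k| ≤ B k := by
      intro k
      rw [hx, hB]
      push_cast
      refine (Finset.abs_sum_le_sum_abs _ _).trans (Finset.sum_le_sum fun i _ => ?_)
      rw [abs_mul, Nat.abs_cast]
      by_cases hi : (⟨k, i⟩ : Σ k, Fin (n k)) ∈ s
      · rw [if_pos hi]
        have := hε _ hi
        have h0 : (0 : ℤ) ≤ b k i := by positivity
        nlinarith
      · rw [if_neg hi]
        simp
    have hsum' : ∑ k ∈ range K, (1 + (T B k : ℤ)) * x k = 0 := by
      rw [← hsum]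
      have h1 : s ⊆ (range K).sigma (fun k => (univ : Finset (Fin (n k)))) := by
        intro p hp
        rw [Finset.mem_sigma]
        exact ⟨Finset.mem_range.2 (hK p hp), Finset.mem_univ _⟩
      have h2 : ∑ p ∈ s, ε p * (F p : ℤ) =
          ∑ p ∈ (range K).sigma (fun k => (univ : Finset (Fin (n k)))),
            (if p ∈ s then ε p else 0) * (F p : ℤ) := by
        rw [← Finset.sum_subset h1]
        · refine Finset.sum_congr rfl fun p hp => ?_
          rw [if_pos hp]
        · intro p _ hp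
          rw [if_neg hp, zero_mul]
      rw [h2, Finset.sum_sigma]
      refine Finset.sum_congr rfl fun k _ => ?_
      rw [hx, Finset.mul_sum]
      refine Finset.sum_congr rfl fun i _ => ?_
      rw [hF]
      push_cast
      ring
    have hall := tower B x hxB K hsum'
    intro p hp
    obtain ⟨k, i⟩ := p
    have hk := hall k (hK _ hp)
    have := hw k univ (fun _ _ => Set.mem_univ _)
      (fun i => if (⟨k, i⟩ : Σ k, Fin (n k)) ∈ s then ε ⟨k, i⟩ else 0)
      (by
        intro i _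
        by_cases hi : (⟨k, i⟩ : Σ k, Fin (n k)) ∈ s
        · simp only [if_pos hi]; exact hε _ hi
        · simp only [if_neg hi]; norm_num) hk i (Finset.mem_univ _)
    simp only [if_pos hp] at this
    exact this
  have : Infinite (Σ k, Fin (n k)) := by
    refine Infinite.of_injective (fun k : ℕ => (⟨k, ⟨0, hn k⟩⟩ : Σ k, Fin (n k))) ?_
    intro k l hkl
    exact congrArg Sigma.fst hkl
  obtain ⟨e⟩ : Nonempty (ℕ ≃ Σ k, Fin (n k)) := nonempty_equiv_of_countable
  refine ⟨F ∘ e, ?_, ?_, ?_⟩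
  · intro t
    exact Nat.mul_pos (by omega) (hpos _ _)
  · exact indep_comp 1 e e.injective F Set.univ hFw
  · rintro k m ⟨c, hc⟩
    refine ⟨fun i => c (e.symm ⟨k, i⟩), fun j => ?_⟩
    have hinj : Function.Injective (fun i : Fin (n k) => e.symm ⟨k, i⟩) := by
      intro i i' h
      have := e.symm.injective h
      simpa using this
    have h1 := indep_comp 2 (fun i : Fin (n k) => e.symm ⟨k, i⟩) hinj (F ∘ e) _ (hc j)
    have h2 : ((F ∘ e) ∘ fun i : Fin (n k) => e.symm ⟨k, i⟩) =
        fun i => (1 + T B k) * b k i := by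
      funext i
      change F (e (e.symm ⟨k, i⟩)) = _
      rw [Equiv.apply_symm_apply]
    rw [h2] at h1
    exact indep_scale 2 (1 + T B k) _ _ h1

/-- the finite example with distinct subset sums which is not a union of two strongly
independent sets -/
def ex5 : Fin 5 → ℕ := ![2, 4, 5, 8, 18]

theorem ex5_weak : Weak ex5 := by
  intro s _ ε hε hsum
  classical
  have h1 : ∑ i : Fin 5, (if i ∈ s then ε i else 0) * (ex5 i : ℤ) = 0 := by
    refine Eq.trans ?_ hsum
    symm
    rw [← Finset.sum_subset (Finset.subset_univ s)]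
    · refine Finset.sum_congr rfl fun i hi => ?_
      rw [if_pos hi]
    · intro i _ hi
      rw [if_neg hi, zero_mul]
  have h2 : ∀ i, |(if i ∈ s then ε i else 0)| ≤ 1 := by
    intro i
    by_cases hi : i ∈ s
    · rw [if_pos hi]; exact hε i hi
    · rw [if_neg hi]; norm_num
  have h3 : ∀ y : Fin 5 → ℤ, ∑ i : Fin 5, y i * (ex5 i : ℤ) = 0 → (∀ i, |y i| ≤ 1) →
      ∀ i, y i = 0 := by
    intro y hy hb
    rw [Fin.sum_univ_five] at hy
    have hb0 := abs_le.1 (hb 0)
    have hb1 := abs_le.1 (hb 1)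
    have hb2 := abs_le.1 (hb 2)
    have hb3 := abs_le.1 (hb 3)
    have hb4 := abs_le.1 (hb 4)
    have hy' : y 0 * 2 + y 1 * 4 + y 2 * 5 + y 3 * 8 + y 4 * 18 = 0 := hy
    have e2 : y 2 = 0 := by omega
    have e0 : y 0 = 0 := by omega
    have e4 : y 4 = 0 := by omega
    have e1 : y 1 = 0 := by omega
    have e3 : y 3 = 0 := by omega
    intro i
    fin_cases i
    · exact e0
    · exact e1
    · exact e2
    · exact e3
    · exact e4
  intro i hi
  have := h3 _ h1 h2 i
  rwa [if_pos hi] at this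

theorem circuit (c : Fin 5 → Fin 2) (h : ∀ j, Indep 2 ex5 {i | c i = j}) (S : Finset (Fin 5))
    (ε : Fin 5 → ℤ) (j : Fin 2) (hS : ∀ i ∈ S, c i = j) (hε : ∀ i ∈ S, |ε i| ≤ 2)
    (hsum : ∑ i ∈ S, ε i * (ex5 i : ℤ) = 0) (i : Fin 5) (hi : i ∈ S) (hne : ε i ≠ 0) : False :=
  hne (h j S hS ε hε hsum i hi)

theorem fin2 : ∀ x0 x1 x2 x3 x4 : Fin 2, ¬ (x1 = x0) → ¬ (x3 = x1) → ¬ (x2 = x0 ∧ x3 = x0) →
    ¬ (x3 = x0 ∧ x4 = x0) → ¬ (x2 = x1 ∧ x4 = x1) → False := by
  decide

theorem ex5_not : ¬ Splits ex5 2 := by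
  rintro ⟨c, hc⟩
  refine fin2 (c 0) (c 1) (c 2) (c 3) (c 4) ?_ ?_ ?_ ?_ ?_
  · intro h
    refine circuit c hc {0, 1} ![2, -1, 0, 0, 0] (c 0) ?_ (by decide) (by decide) 0 (by decide)
      (by decide)
    intro i hi
    fin_cases hi
    · rfl
    · exact h
  · intro h
    refine circuit c hc {1, 3} ![0, 2, 0, -1, 0] (c 1) ?_ (by decide) (by decide) 1 (by decide)
      (by decide)
    intro i hi
    fin_cases hi
    · rfl
    · exact h
  · rintro ⟨h, h'⟩
    refine circuit c hc {0, 2, 3} ![1, 0, -2, 1, 0] (c 0) ?_ (by decide) (by decide) 0 (by decide)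
      (by decide)
    intro i hi
    fin_cases hi
    · rfl
    · exact h
    · exact h'
  · rintro ⟨h, h'⟩
    refine circuit c hc {0, 3, 4} ![1, 0, 0, 2, -1] (c 0) ?_ (by decide) (by decide) 0 (by decide)
      (by decide)
    intro i hi
    fin_cases hi
    · rfl
    · exact h
    · exact h'
  · rintro ⟨h, h'⟩
    refine circuit c hc {1, 2, 4} ![0, 2, 2, 0, -1] (c 1) ?_ (by decide) (by decide) 1 (by decide)
      (by decide)
    intro i hi
    fin_cases hi
    · rfl
    · exact h
    · exact h'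

/-- the question for infinite sequences -/
def Question : Prop :=
  ∀ a : ℕ → ℕ, (∀ i, 0 < a i) → Weak a → ∃ k, Splits a k

/-- `k` classes suffice for all finite weakly independent sequences -/
def FiniteBound (k : ℕ) : Prop :=
  ∀ (n : ℕ) (b : Fin n → ℕ), (∀ i, 0 < b i) → Weak b → Splits b k

/-- `k` classes suffice for all infinite weakly independent sequences -/
def SequenceBound (k : ℕ) : Prop :=
  ∀ a : ℕ → ℕ, (∀ i, 0 < a i) → Weak a → Splits a k

theorem finite_of_sequence (k : ℕ) (h : SequenceBound k) : FiniteBound k := by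
  intro n b hb hw
  rcases Nat.eq_zero_or_pos n with rfl | hn
  · have hk : 0 < k := by
      obtain ⟨A, hA, hAw, _⟩ := glue (fun _ => 5) (fun _ => by norm_num) (fun _ => ex5)
        (fun _ => by decide) (fun _ => ex5_weak)
      obtain ⟨c, _⟩ := h A hA hAw
      exact lt_of_le_of_lt (Nat.zero_le _) (c 0).2
    refine ⟨fun _ => ⟨0, hk⟩, fun j s _ ε _ _ i _ => i.elim0⟩
  · obtain ⟨A, hA, hAw, hs⟩ := glue (fun _ => n) (fun _ => hn) (fun _ => b)
      (fun _ => hb) (fun _ => hw)
    exact hs 0 k (h A hA hAw)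

theorem sequence_of_finite (k : ℕ) (h : FiniteBound k) : SequenceBound k := by
  classical
  intro a ha hw
  have hk : 0 < k := by
    obtain ⟨c, _⟩ := h 5 ex5 (by decide) ex5_weak
    exact lt_of_le_of_lt (Nat.zero_le _) (c 0).2
  have hfin : ∀ n : ℕ, ∃ c : Fin n → Fin k, ∀ j, Indep 2 (a ∘ Fin.val) {i : Fin n | c i = j} := by
    intro n
    exact h n (a ∘ Fin.val) (fun i => ha _) (indep_comp 1 Fin.val Fin.val_injective a _ hw)
  choose c hc using hfin
  set g : ℕ → ℕ → Fin k := fun n i => if hi : i < n then c n ⟨i, hi⟩ else ⟨0, hk⟩ with hg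
  have hlim : ∀ i : ℕ, ∃ j : Fin k, ∀ᶠ n in (Filter.hyperfilter ℕ : Filter ℕ), g n i = j := by
    intro i
    have := Ultrafilter.eq_pure_of_finite ((Filter.hyperfilter ℕ).map (fun n => g n i))
    obtain ⟨j, hj⟩ := this
    refine ⟨j, ?_⟩
    have h1 : {x : Fin k | x = j} ∈ (Filter.hyperfilter ℕ).map (fun n => g n i) := by
      rw [hj]
      exact Ultrafilter.mem_pure.2 rfl
    exact h1
  choose C hC using hlim
  refine ⟨C, fun j s hs ε hε hsum => ?_⟩
  have h1 : ∀ᶠ n in (Filter.hyperfilter ℕ : Filter ℕ), ∀ i ∈ s, g n i = C i := by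
    rw [Filter.eventually_all_finset]
    exact fun i _ => hC i
  have h2 : ∀ᶠ n in (Filter.hyperfilter ℕ : Filter ℕ), ∀ i ∈ s, i < n := by
    rw [Filter.eventually_all_finset]
    intro i _
    have : ∀ᶠ n in (Filter.cofinite : Filter ℕ), i < n := by
      rw [Nat.cofinite_eq_atTop]
      exact Filter.eventually_gt_atTop i
    exact Filter.hyperfilter_le_cofinite this
  obtain ⟨n, hn1, hn2⟩ := (h1.and h2).exists
  set s' : Finset (Fin n) := Finset.univ.filter (fun i : Fin n => (i : ℕ) ∈ s) with hs'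
  have hmap : s'.map Fin.valEmbedding = s := by
    ext i
    simp only [hs', Finset.mem_map, Finset.mem_filter, Finset.mem_univ, true_and,
      Fin.valEmbedding_apply]
    constructor
    · rintro ⟨x, hx, rfl⟩
      exact hx
    · intro hi
      exact ⟨⟨i, hn2 i hi⟩, hi, rfl⟩
  have key := hc n j s' (by
    intro i hi
    have hi' : (i : ℕ) ∈ s := (Finset.mem_filter.1 hi).2
    have h3 := hn1 i hi'
    have h4 : C i = j := hs i hi'
    rw [h4] at h3
    simp only [hg] at h3
    rw [dif_pos i.2] at h3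
    exact h3) (fun i => ε i) (by
    intro i hi
    exact hε i (Finset.mem_filter.1 hi).2) (by
    rw [← hsum, ← hmap, Finset.sum_map]
    rfl)
  intro i hi
  exact key ⟨i, hn2 i hi⟩ (Finset.mem_filter.2 ⟨Finset.mem_univ _, hi⟩)

theorem finite_of_question (h : Question) : ∃ k, FiniteBound k := by
  by_contra hcon
  push Not at hcon
  have h1 : ∀ k : ℕ, ∃ (n : ℕ) (b : Fin n → ℕ), 0 < n ∧ (∀ i, 0 < b i) ∧ Weak b ∧
      ¬ Splits b k := by
    intro k
    by_contra hno
    push Not at hno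
    apply hcon (max k 1)
    intro n b hb hw
    rcases Nat.eq_zero_or_pos n with rfl | hn
    · exact ⟨fun i => i.elim0, fun j s _ ε _ _ i _ => i.elim0⟩
    · obtain ⟨c, hc⟩ := hno n b hn hb hw
      refine ⟨fun i => Fin.castLE (le_max_left k 1) (c i), fun j s hs ε hε hsum i hi => ?_⟩
      refine hc (c i) s ?_ ε hε hsum i hi
      intro i' hi'
      have e1 : Fin.castLE (le_max_left k 1) (c i') = j := hs i' hi'
      have e2 : Fin.castLE (le_max_left k 1) (c i) = j := hs i hi
      have e3 : c i' = c i := by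
        apply Fin.castLE_injective (le_max_left k 1)
        rw [e1, e2]
      exact e3
  choose n b hn hb hw hns using h1
  obtain ⟨A, hA, hAw, hs⟩ := glue n hn b hb hw
  obtain ⟨m, hm⟩ := h A hA hAw
  exact hns m (hs m m hm)

end Pool.Agent.H470R3.WI
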